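import Mathlib
import Pool.Agent.Helper404.KMC

/-!
EXACT-PROJECT (MP_a85dd6_nt S18075 and MP_0c2c5b_nt S15993).  Task statements.
-/

open MeasureTheory Polynomial Set

namespace Pool.Agent.H680R3.EX

open Pool.Agent.Helper404 (toP castQ kmC)

/-- `k`-th divided derivative of the integer polynomial with coefficient vector `u`, at `z` -/
noncomputable def DD {n : ℕ} (k : ℕ) (u : Fin (n + 1) → ℤ) (z : ℝ) : ℝ :=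
  ((hasseDeriv k (toP u)).map (Int.castRingHom ℝ)).eval z

/-- naive height of a coefficient vector -/
def ht {n : ℕ} (u : Fin (n + 1) → ℤ) : ℕ := Finset.univ.sup fun i => (u i).natAbs

/-- `α` is real algebraic of degree `n` and `u` is the coefficient vector of a primitive integer
polynomial of degree `n` vanishing at `α` -/
def Good (n : ℕ) (α : ℝ) (u : Fin (n + 1) → ℤ) : Prop :=
  (minpoly ℚ α).natDegree = n ∧ (toP u).IsPrimitive ∧ (toP u).natDegree = n ∧ aeval α (toP u) = 0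

/-- the lattice `ℤ^(n+1)` has no short nonzero vector at the point `z`, scale `X` -/
def Tight (n : ℕ) (c X z : ℝ) : Prop :=
  ∀ u : Fin (n + 1) → ℤ, u ≠ 0 → ¬ ((∀ i, |(u i : ℝ)| ≤ c * X) ∧ |DD 0 u z| ≤ c / X ^ n)

/-- TASK A. small value and small derivative is rare (use `Pool.Agent.Helper404.km_concrete`) -/
def TaskA : Prop := ∀ n : ℕ, 2 ≤ n → ∀ ε A : ℝ, 0 < ε → 1 ≤ A → ∃ φ : ℝ, 0 < φ ∧ ∃ X0 : ℝ,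
  ∀ X : ℝ, X0 ≤ X → volume {z ∈ Ico (-1 : ℝ) 2 | ∃ u : Fin (n + 1) → ℤ, u ≠ 0 ∧
    (∀ i, |(u i : ℝ)| ≤ A * X) ∧ |DD 0 u z| ≤ A / X ^ n ∧ |DD 1 u z| < φ * X} ≤ ENNReal.ofReal ε

/-- linear forms of a frame -/
noncomputable def Lf {ι : Type} [Fintype ι] (A : ι → ι → ℤ[X]) (k : ι) (u : ι → ℤ) : ℤ[X] :=
  ∑ i, C (u i) * A k i

/-- TASK B. quantitative nondivergence for a general polynomial frame
(copy `Pool/Agent/Helper404/KMC.lean` and generalise; `km` and `sublevel` can be used as they are) -/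
def TaskB : Prop := ∀ (ι : Type) [Fintype ι] [DecidableEq ι] [Nonempty ι] (A : ι → ι → ℤ[X])
  (d : ℕ) (_ : 1 ≤ d) (_ : ∀ k i, (A k i).natDegree ≤ d) (w : ι → ℝ) (_ : ∀ k, 0 < w k)
  (ρ : ℝ) (_ : 0 < ρ)
  (_ : ∀ j : ℕ, 1 ≤ j → ∀ v : Fin j → ι → ℤ, LinearIndependent ℚ (fun a i => (v a i : ℚ)) →
    ∃ I : Fin j → ι, Matrix.det (Matrix.of fun a b : Fin j => Lf A (I b) (v a)) ≠ 0 ∧
      ρ ^ j * ∏ b, w (I b) ≤ 1 / (((Fintype.card ι * d : ℕ) : ℝ) + 1) ^ (Fintype.card ι * d))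
  (ε : ℝ) (_ : 0 < ε) (_ : ε ≤ 1),
  volume {z ∈ Ico (-1 : ℝ) 2 | ∃ u : ι → ℤ, u ≠ 0 ∧
      ∀ k : ι, (Fintype.card ι : ℝ) * |((Lf A k u).map (Int.castRingHom ℝ)).eval z| < ε * ρ * w k} ≤
    ENNReal.ofReal (kmC (4 * (((Fintype.card ι * d : ℕ) : ℝ) + 1) ^ 2) (Fintype.card ι) *
      ε ^ (1 / ((Fintype.card ι * d : ℕ) : ℝ)) * 3)

/-- index set of `Λ²` -/
abbrev Pr (n : ℕ) : Type := {p : Fin (n + 1) × Fin (n + 1) // p.1 < p.2}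

/-- the Taylor shift matrix -/
noncomputable def MM {n : ℕ} (k a : Fin (n + 1)) : ℤ[X] :=
  C (((a : ℕ).choose (k : ℕ) : ℕ) : ℤ) * X ^ ((a : ℕ) - (k : ℕ))

/-- its second compound -/
noncomputable def AA {n : ℕ} (k a : Pr n) : ℤ[X] :=
  MM k.1.1 a.1.1 * MM k.1.2 a.1.2 - MM k.1.1 a.1.2 * MM k.1.2 a.1.1

/-- `F(x, ·)` for the antisymmetric form `F(x,y) = ∑_{a<b} u_{ab} (x^a y^b - x^b y^a)`, as the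
vector of coefficients of `y^c` -/
noncomputable def Rx {n : ℕ} (x : ℚ) : (Pr n → ℚ) →ₗ[ℚ] (Fin (n + 1) → ℚ) where
  toFun u := fun c => ∑ p : Pr n, u p *
    ((if p.1.2 = c then x ^ (p.1.1 : ℕ) else 0) - (if p.1.1 = c then x ^ (p.1.2 : ℕ) else 0))
  map_add' := by
    intro u v; ext c; simp only [Pi.add_apply, ← Finset.sum_add_distrib, add_mul]
  map_smul' := by
    intro r u; ext c
    simp only [Pi.smul_apply, smul_eq_mul, RingHom.id_apply, Finset.mul_sum, mul_assoc]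

/-- TASK C. (linear algebra, induction on `p`): a space of antisymmetric forms all of whose
`F(x, ·)` span at most `p` dimensions has dimension at most `p(p+1)/2` -/
def TaskC : Prop := ∀ n p : ℕ, ∀ (Δ : Submodule ℚ (Pr n → ℚ)) (Z : Set ℚ), Z.Infinite →
  (∀ x ∈ Z, Module.finrank ℚ (Δ.map (Rx x)) ≤ p) → 2 * Module.finrank ℚ Δ ≤ p * (p + 1)

/-- TASK D. (uses TASK C): good minors -/
def TaskD : Prop := ∀ n : ℕ, 2 ≤ n → ∀ j : ℕ, 1 ≤ j → ∀ v : Fin j → Pr n → ℤ,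
  LinearIndependent ℚ (fun a i => (v a i : ℚ)) →
  ∃ I : Fin j → Pr n, Matrix.det (Matrix.of fun a b : Fin j => Lf AA (I b) (v a)) ≠ 0 ∧
    (2 * j + 1 ≤ (n + 1) * (Finset.univ.filter (fun b : Fin j => (I b).1.1 = 0)).card ∨
      j = Fintype.card (Pr n))

/-- TASK E. (uses TASKS B, D): two independent polynomials with a common near root are rare -/
def TaskE : Prop := ∀ n : ℕ, 2 ≤ n → ∀ ε A : ℝ, 0 < ε → 1 ≤ A → ∃ η : ℝ, 0 < η ∧ ∃ X0 : ℝ,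
  ∀ X : ℝ, X0 ≤ X → volume {z ∈ Ico (-1 : ℝ) 2 | ∃ P Q : Fin (n + 1) → ℤ,
    (∃ a b, P a * Q b ≠ P b * Q a) ∧
    (∀ i, |(P i : ℝ)| ≤ A * X) ∧ (∀ i, |(Q i : ℝ)| ≤ A * X) ∧
    |DD 0 P z| ≤ A / X ^ n ∧ |DD 0 Q z| ≤ A / X ^ n ∧
    |DD 0 P z * DD 1 Q z - DD 1 P z * DD 0 Q z| < η * X / X ^ n} ≤ ENNReal.ofReal ε

/-- TASK F. covering radius (Blichfeldt): a tight lattice has an Eisenstein polynomial in every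
large box -/
def TaskF : Prop := ∀ n : ℕ, 1 ≤ n → ∀ c : ℝ, 0 < c → c ≤ 1 → ∃ C0 : ℝ, 1 ≤ C0 ∧
  ∀ z ∈ Icc (-1 : ℝ) 2, ∀ X : ℝ, 1 ≤ X → Tight n c X z →
    ∃ u : Fin (n + 1) → ℤ, (∀ i, |(u i : ℝ)| ≤ C0 * X) ∧ |DD 0 u z| ≤ C0 / X ^ n ∧
      u (Fin.last n) % 4 = 1 ∧ u 0 % 4 = 2 ∧ ∀ i, i ≠ 0 → i ≠ Fin.last n → u i % 4 = 0

/-- TASK G. Eisenstein -/
def TaskG : Prop := ∀ n : ℕ, 1 ≤ n → ∀ u : Fin (n + 1) → ℤ,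
  u (Fin.last n) % 4 = 1 → u 0 % 4 = 2 → (∀ i, i ≠ 0 → i ≠ Fin.last n → u i % 4 = 0) →
  ∀ α : ℝ, aeval α (toP u) = 0 →
    ∃ (c : ℤ) (g : Fin (n + 1) → ℤ), c ≠ 0 ∧ (∀ i, u i = c * g i) ∧ Good n α g

/-- TASK H. packing: few lattice points when tight -/
def TaskH : Prop := ∀ n : ℕ, 1 ≤ n → ∀ c B : ℝ, 0 < c → c ≤ 1 → 1 ≤ B → ∃ K : ℝ, 0 < K ∧
  ∀ z ∈ Icc (-1 : ℝ) 2, ∀ X : ℝ, 1 ≤ X → Tight n c X z → ∀ t : ℝ, 1 ≤ t →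
    {u : Fin (n + 1) → ℤ | (∀ i, |(u i : ℝ)| ≤ B * t * X) ∧ |DD 0 u z| ≤ B * t / X ^ n}.Finite ∧
    ({u : Fin (n + 1) → ℤ | (∀ i, |(u i : ℝ)| ≤ B * t * X) ∧
      |DD 0 u z| ≤ B * t / X ^ n}.ncard : ℝ) ≤ K * t ^ (n + 1)

/-- TASK I. measure of a sparse union of intervals (dyadic summation) -/
def TaskI : Prop := ∀ n : ℕ, ∀ s c : ℝ, (n : ℝ) + 1 < s → 0 < c → ∃ G : ℝ, 0 < G ∧
  ∀ T K : ℝ, 0 < T → 0 ≤ K → ∀ S : Set (ℝ × (Fin (n + 1) → ℤ)),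
    (∀ p ∈ S, T ≤ (ht p.2 : ℝ)) →
    (∀ k : ℕ, {p ∈ S | (ht p.2 : ℝ) ≤ 2 ^ k * T}.Finite ∧
      ({p ∈ S | (ht p.2 : ℝ) ≤ 2 ^ k * T}.ncard : ℝ) ≤ K * (2 ^ k) ^ (n + 1)) →
    volume (⋃ p ∈ S, {ξ : ℝ | |ξ - p.1| < c * (ht p.2 : ℝ) ^ (-s)}) ≤
      ENNReal.ofReal (G * K * T ^ (-s))

/-- TASK J. (uses TASK I): global Borel-Cantelli bound -/
def TaskJ : Prop := ∀ n : ℕ, 1 ≤ n → ∀ s c : ℝ, (n : ℝ) + 1 < s → 0 < c → ∀ ε : ℝ, 0 < ε →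
  ∃ N : ℕ, 1 ≤ N ∧ volume {ξ ∈ Icc (-1 : ℝ) 2 | ∃ (α : ℝ) (u : Fin (n + 1) → ℤ), Good n α u ∧
    N ≤ ht u ∧ |ξ - α| < c * (ht u : ℝ) ^ (-s)} ≤ ENNReal.ofReal ε

/-- TASK K. polynomial estimates on `[-2,2]` -/
def TaskK : Prop := ∀ n : ℕ, ∃ C : ℝ, 1 ≤ C ∧ ∀ (u : Fin (n + 1) → ℤ) (H : ℝ),
  (∀ i, |(u i : ℝ)| ≤ H) →
    (∀ k : ℕ, ∀ x ∈ Icc (-3 : ℝ) 3, |DD k u x| ≤ C * H) ∧
    (∀ x ∈ Icc (-3 : ℝ) 3, ∀ y ∈ Icc (-3 : ℝ) 3,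
      |DD 0 u y - DD 0 u x - DD 1 u x * (y - x)| ≤ C * H * (y - x) ^ 2) ∧
    (∀ x ∈ Icc (-3 : ℝ) 3, ∀ y ∈ Icc (-3 : ℝ) 3,
      |DD 1 u y - DD 1 u x| ≤ C * H * |y - x|)

/-- the bad set of a constant, heights at least `N` -/
def Bad (n : ℕ) (s c : ℝ) (N : ℕ) : Set ℝ :=
  {ξ | ∃ (α : ℝ) (u : Fin (n + 1) → ℤ), Good n α u ∧ N ≤ ht u ∧ |ξ - α| < c * (ht u : ℝ) ^ (-s)}

/-- KEY LEMMA (helper680) -/
def Key : Prop := ∀ n : ℕ, 2 ≤ n → ∀ s c₁ c₂ : ℝ, (n : ℝ) + 1 < s → 0 < c₁ → c₁ < c₂ → ∀ N : ℕ,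
  1 ≤ N → ∀ a b : ℝ, 0 ≤ a → b ≤ 1 → volume (Ioo a b \ Bad n s c₁ N) ≠ 0 → ∀ M : ℕ,
    ∃ (α : ℝ) (u : Fin (n + 1) → ℤ), Good n α u ∧ M ≤ ht u ∧
      volume ({ξ ∈ Ioo a b | |ξ - α| < c₂ * (ht u : ℝ) ^ (-s)} \ Bad n s c₁ N) ≠ 0

/-- TASK L. (uses KEY and TASK J): the nested construction -/
def TaskL : Prop := ∀ n : ℕ, 2 ≤ n → ∀ s c₁ c₂ : ℝ, (n : ℝ) + 1 < s → 0 < c₁ → c₁ < c₂ →
  ∃ ξ : ℝ,
    {α : ℝ | ∃ u : Fin (n + 1) → ℤ, Good n α u ∧ |ξ - α| < c₂ * (ht u : ℝ) ^ (-s)}.Infinite ∧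
    {α : ℝ | ∃ u : Fin (n + 1) → ℤ, Good n α u ∧ |ξ - α| < c₁ * (ht u : ℝ) ^ (-s)}.Finite

end Pool.Agent.H680R3.EX
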