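import Mathlib
import Pool.Agent.H680R3.EX.Stmts

open MeasureTheory Polynomial Set

namespace Pool.Agent.H680R3.EX

open Pool.Agent.Helper404 (toP castQ kmC)

theorem DD_eq {n : ℕ} (k : ℕ) (u : Fin (n + 1) → ℤ) (z : ℝ) :
    DD k u z = ∑ i : Fin (n + 1), (u i : ℝ) * (((i : ℕ).choose k : ℕ) : ℝ) * z ^ ((i : ℕ) - k) := by
  unfold DD toP
  rw [map_sum]
  simp only [C_mul_X_pow_eq_monomial, hasseDeriv_monomial, Polynomial.map_sum, eval_finsetSum,
    map_monomial, eval_monomial]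
  refine Finset.sum_congr rfl (fun i _ => ?_)
  simp only [eq_intCast, Int.cast_mul, Int.cast_natCast]
  ring

theorem DD_zero_eq {n : ℕ} (u : Fin (n + 1) → ℤ) (z : ℝ) :
    DD 0 u z = ∑ i : Fin (n + 1), (u i : ℝ) * z ^ (i : ℕ) := by
  rw [DD_eq]; simp

theorem DD_one_eq {n : ℕ} (u : Fin (n + 1) → ℤ) (z : ℝ) :
    DD 1 u z = ∑ i : Fin (n + 1), (u i : ℝ) * (i : ℕ) * z ^ ((i : ℕ) - 1) := by
  rw [DD_eq]; simp

theorem mono_bd (i : ℕ) : ∃ C : ℝ, 0 ≤ C ∧ ∀ x ∈ Icc (-3 : ℝ) 3, ∀ y ∈ Icc (-3 : ℝ) 3,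
    |x ^ i| ≤ C ∧ |y ^ i - x ^ i| ≤ C * |y - x| ∧
    |y ^ i - x ^ i - i * x ^ (i - 1) * (y - x)| ≤ C * (y - x) ^ 2 := by
  induction i with
  | zero => exact ⟨1, by norm_num, fun x _ y _ => ⟨by simp, by simp, by simp; positivity⟩⟩
  | succ i ih =>
    obtain ⟨C, hC, h⟩ := ih
    refine ⟨4 * C + i * 3 ^ (i - 1) + 3 * C, by positivity, fun x hx y hy => ?_⟩
    obtain ⟨h1, h2, h3⟩ := h x hx y hy
    have hx3 : |x| ≤ 3 := abs_le.2 ⟨by linarith [hx.1], hx.2⟩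
    have hy3 : |y| ≤ 3 := abs_le.2 ⟨by linarith [hy.1], hy.2⟩
    have hi : (0 : ℝ) ≤ i * 3 ^ (i - 1) := by positivity
    have hC3 : (4 * C + i * 3 ^ (i - 1) + 3 * C : ℝ) ≥ 3 * C + i * 3 ^ (i - 1) := by linarith
    refine ⟨?_, ?_, ?_⟩
    · rw [pow_succ, abs_mul]
      have : |x ^ i| * |x| ≤ C * 3 := mul_le_mul h1 hx3 (abs_nonneg _) hC
      linarith
    · have e : y ^ (i + 1) - x ^ (i + 1) = y * (y ^ i - x ^ i) + x ^ i * (y - x) := by ring
      rw [e]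
      refine (abs_add_le _ _).trans ?_
      rw [abs_mul, abs_mul]
      have a1 : |y| * |y ^ i - x ^ i| ≤ 3 * (C * |y - x|) :=
        mul_le_mul hy3 h2 (abs_nonneg _) (by norm_num)
      have a2 : |x ^ i| * |y - x| ≤ C * |y - x| := mul_le_mul_of_nonneg_right h1 (abs_nonneg _)
      have a3 : (0 : ℝ) ≤ i * 3 ^ (i - 1) * |y - x| := by positivity
      have a4 : 0 ≤ C * |y - x| := by positivity
      nlinarith
    · have e : y ^ (i + 1) - x ^ (i + 1) - ((i + 1 : ℕ) : ℝ) * x ^ (i + 1 - 1) * (y - x) =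
          y * (y ^ i - x ^ i - i * x ^ (i - 1) * (y - x)) + i * x ^ (i - 1) * (y - x) ^ 2 := by
        rcases Nat.eq_zero_or_pos i with h0 | h0
        · subst h0; simp
        · obtain ⟨j, rfl⟩ : ∃ j, i = j + 1 := ⟨i - 1, by omega⟩
          simp only [Nat.add_sub_cancel]
          push_cast
          ring
      rw [e]
      refine (abs_add_le _ _).trans ?_
      rw [abs_mul, abs_mul, abs_mul]
      have a1 : |y| * |y ^ i - x ^ i - i * x ^ (i - 1) * (y - x)| ≤ 3 * (C * (y - x) ^ 2) :=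
        mul_le_mul hy3 h3 (abs_nonneg _) (by norm_num)
      have a2 : |(i : ℝ)| * |x ^ (i - 1)| * |(y - x) ^ 2| ≤ i * 3 ^ (i - 1) * (y - x) ^ 2 := by
        rw [abs_of_nonneg (sq_nonneg (y - x)), Nat.abs_cast, abs_pow]
        gcongr
      have a4 : 0 ≤ C * (y - x) ^ 2 := by positivity
      nlinarith

theorem taskK : TaskK := by
  intro n
  choose C0 hC0 h0 using mono_bd
  set S : ℝ := ∑ i ∈ Finset.range (n + 1), C0 i with hS
  set S' : ℝ := ∑ i ∈ Finset.range (n + 1), (i : ℝ) * C0 (i - 1) with hS'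
  have hSn : 0 ≤ S := Finset.sum_nonneg (fun i _ => hC0 i)
  have hSn' : 0 ≤ S' := Finset.sum_nonneg (fun i _ => mul_nonneg (Nat.cast_nonneg _) (hC0 _))
  refine ⟨1 + S + S' + (n + 1) * (2 ^ n * 3 ^ n), ?_, fun u H hu => ⟨?_, ?_, ?_⟩⟩
  · have : (0 : ℝ) ≤ (n + 1) * (2 ^ n * 3 ^ n) := by positivity
    linarith
  · intro k x hx
    have hH : 0 ≤ H := (abs_nonneg _).trans (hu 0)
    rw [DD_eq]
    refine (Finset.abs_sum_le_sum_abs _ _).trans ?_
    have : ∀ i ∈ (Finset.univ : Finset (Fin (n + 1))),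
        |(u i : ℝ) * (((i : ℕ).choose k : ℕ) : ℝ) * x ^ ((i : ℕ) - k)| ≤ H * (2 ^ n * 3 ^ n) := by
      intro i _
      have hx3 : |x| ≤ 3 := abs_le.2 ⟨by linarith [hx.1], hx.2⟩
      have hc : (((i : ℕ).choose k : ℕ) : ℝ) ≤ 2 ^ n := by
        calc (((i : ℕ).choose k : ℕ) : ℝ) ≤ ((2 ^ (i : ℕ) : ℕ) : ℝ) := by
              exact_mod_cast Nat.choose_le_two_pow _ _
          _ ≤ 2 ^ n := by
              push_cast
              exact pow_le_pow_right₀ (by norm_num) (by omega)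
      have hp : |x ^ ((i : ℕ) - k)| ≤ 3 ^ n := by
        rw [abs_pow]
        calc |x| ^ ((i : ℕ) - k) ≤ 3 ^ ((i : ℕ) - k) := pow_le_pow_left₀ (abs_nonneg _) hx3 _
          _ ≤ 3 ^ n := pow_le_pow_right₀ (by norm_num) (by omega)
      rw [abs_mul, abs_mul, Nat.abs_cast, mul_assoc]
      refine mul_le_mul (hu i) ?_ (by positivity) hH
      exact mul_le_mul hc hp (abs_nonneg _) (by positivity)
    refine (Finset.sum_le_sum this).trans ?_
    rw [Finset.sum_const, Finset.card_univ, Fintype.card_fin, nsmul_eq_mul]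
    push_cast
    have h1 : 0 ≤ (1 + S + S') * H := by positivity
    nlinarith
  · intro x hx y hy
    have hH : 0 ≤ H := (abs_nonneg _).trans (hu 0)
    have e : DD 0 u y - DD 0 u x - DD 1 u x * (y - x) = ∑ i : Fin (n + 1), (u i : ℝ) *
        (y ^ (i : ℕ) - x ^ (i : ℕ) - (i : ℕ) * x ^ ((i : ℕ) - 1) * (y - x)) := by
      rw [DD_zero_eq, DD_zero_eq, DD_one_eq, Finset.sum_mul, ← Finset.sum_sub_distrib,
        ← Finset.sum_sub_distrib]
      refine Finset.sum_congr rfl (fun i _ => ?_)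
      ring
    rw [e]
    refine (Finset.abs_sum_le_sum_abs _ _).trans ?_
    have : ∀ i ∈ (Finset.univ : Finset (Fin (n + 1))), |(u i : ℝ) *
        (y ^ (i : ℕ) - x ^ (i : ℕ) - (i : ℕ) * x ^ ((i : ℕ) - 1) * (y - x))| ≤
        H * (C0 i * (y - x) ^ 2) := by
      intro i _
      rw [abs_mul]
      exact mul_le_mul (hu i) (h0 i x hx y hy).2.2 (abs_nonneg _) hH
    refine (Finset.sum_le_sum this).trans ?_
    have e2 : ∑ i : Fin (n + 1), H * (C0 i * (y - x) ^ 2) = S * H * (y - x) ^ 2 := by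
      rw [hS, ← Fin.sum_univ_eq_sum_range, Finset.sum_mul, Finset.sum_mul]
      refine Finset.sum_congr rfl (fun i _ => by ring)
    rw [e2]
    have h1 : 0 ≤ (1 + S' + (n + 1) * (2 ^ n * 3 ^ n)) * H * (y - x) ^ 2 := by positivity
    nlinarith
  · intro x hx y hy
    have hH : 0 ≤ H := (abs_nonneg _).trans (hu 0)
    have e : DD 1 u y - DD 1 u x = ∑ i : Fin (n + 1), (u i : ℝ) *
        ((i : ℕ) * (y ^ ((i : ℕ) - 1) - x ^ ((i : ℕ) - 1))) := by
      rw [DD_one_eq, DD_one_eq, ← Finset.sum_sub_distrib]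
      refine Finset.sum_congr rfl (fun i _ => ?_)
      ring
    rw [e]
    refine (Finset.abs_sum_le_sum_abs _ _).trans ?_
    have : ∀ i ∈ (Finset.univ : Finset (Fin (n + 1))), |(u i : ℝ) *
        ((i : ℕ) * (y ^ ((i : ℕ) - 1) - x ^ ((i : ℕ) - 1)))| ≤
        H * ((i : ℕ) * (C0 ((i : ℕ) - 1) * |y - x|)) := by
      intro i _
      rw [abs_mul, abs_mul, Nat.abs_cast]
      refine mul_le_mul (hu i) ?_ (by positivity) hH
      exact mul_le_mul_of_nonneg_left (h0 _ x hx y hy).2.1 (Nat.cast_nonneg _)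
    refine (Finset.sum_le_sum this).trans ?_
    have e2 : ∑ i : Fin (n + 1), H * ((i : ℕ) * (C0 ((i : ℕ) - 1) * |y - x|)) = S' * H * |y - x| := by
      rw [hS', ← Fin.sum_univ_eq_sum_range (fun i => (i : ℝ) * C0 (i - 1)), Finset.sum_mul,
        Finset.sum_mul]
      refine Finset.sum_congr rfl (fun i _ => by ring)
    rw [e2]
    have h1 : 0 ≤ (1 + S + (n + 1) * (2 ^ n * 3 ^ n)) * H * |y - x| := by positivity
    nlinarith

end Pool.Agent.H680R3.EX
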