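import Mathlib
import Pool.Agent.H680R3.EX.Stmts
import Pool.Agent.H680R3.EX.K

open MeasureTheory Polynomial Set

namespace Pool.Agent.H680R3.EX

open Pool.Agent.Helper404 (toP castQ kmC)

theorem aeval_toP {n : ℕ} (u : Fin (n + 1) → ℤ) (α : ℝ) : aeval α (toP u) = DD 0 u α := by
  rw [DD_zero_eq]
  unfold toP
  rw [map_sum]
  refine Finset.sum_congr rfl (fun i _ => ?_)
  simp

theorem coeff_toP {n : ℕ} (u : Fin (n + 1) → ℤ) (i : Fin (n + 1)) : (toP u).coeff (i : ℕ) = u i := by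
  unfold toP
  rw [finsetSum_coeff]
  rw [Finset.sum_eq_single i]
  · simp
  · intro j _ hj
    rw [coeff_C_mul_X_pow, if_neg]
    intro h
    exact hj (Fin.ext h.symm)
  · intro h; exact absurd (Finset.mem_univ _) h

theorem abs_le_ht {n : ℕ} (u : Fin (n + 1) → ℤ) (i : Fin (n + 1)) : |(u i : ℝ)| ≤ (ht u : ℝ) := by
  have : (u i).natAbs ≤ ht u := Finset.le_sup (f := fun i => (u i).natAbs) (Finset.mem_univ i)
  rw [← Int.cast_abs, Int.abs_eq_natAbs]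
  exact_mod_cast this

theorem ht_le {n : ℕ} (u : Fin (n + 1) → ℤ) {H : ℝ} (h : ∀ i, |(u i : ℝ)| ≤ H) : (ht u : ℝ) ≤ H := by
  obtain ⟨i, _, hi⟩ := Finset.exists_mem_eq_sup (Finset.univ : Finset (Fin (n + 1)))
    Finset.univ_nonempty (fun i => (u i).natAbs)
  unfold ht
  rw [hi, Nat.cast_natAbs, Int.cast_abs]
  exact h i

theorem exists_ht {n : ℕ} (u : Fin (n + 1) → ℤ) : ∃ i, |(u i : ℝ)| = (ht u : ℝ) := by
  obtain ⟨i, _, hi⟩ := Finset.exists_mem_eq_sup (Finset.univ : Finset (Fin (n + 1)))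
    Finset.univ_nonempty (fun i => (u i).natAbs)
  refine ⟨i, ?_⟩
  unfold ht
  rw [hi, Nat.cast_natAbs, Int.cast_abs]

theorem Good.ne_zero {n : ℕ} {α : ℝ} {u : Fin (n + 1) → ℤ} (h : Good n α u) : u ≠ 0 := by
  intro h0
  have h1 := h.2.1.ne_zero
  apply h1
  rw [h0]
  simp [toP]

theorem Good.DD {n : ℕ} {α : ℝ} {u : Fin (n + 1) → ℤ} (h : Good n α u) : DD 0 u α = 0 := by
  rw [← aeval_toP]; exact h.2.2.2

theorem ht_pos {n : ℕ} {u : Fin (n + 1) → ℤ} (h : u ≠ 0) : 1 ≤ ht u := by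
  by_contra hc
  have h0 : ht u = 0 := by omega
  apply h
  funext i
  have := abs_le_ht u i
  rw [h0] at this
  have h1 : |(u i : ℝ)| = 0 := le_antisymm (by simpa using this) (abs_nonneg _)
  have h2 : (u i : ℝ) = 0 := abs_eq_zero.1 h1
  exact_mod_cast h2

theorem DD_cont {n : ℕ} (k : ℕ) (u : Fin (n + 1) → ℤ) : Continuous (DD k u) := by
  unfold DD; fun_prop

theorem DD_smul {n : ℕ} (k : ℕ) (c : ℤ) (u g : Fin (n + 1) → ℤ) (h : ∀ i, u i = c * g i) (z : ℝ) :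
    DD k u z = c * DD k g z := by
  rw [DD_eq, DD_eq, Finset.mul_sum]
  refine Finset.sum_congr rfl (fun i _ => ?_)
  rw [h i]; push_cast; ring

/-- the intermediate value theorem with Taylor data -/
theorem exists_root {f : ℝ → ℝ} (hf : Continuous f) (x0 d v δ : ℝ) (hv : 0 < v) (hδ : 0 < δ)
    (h0 : |f x0| ≤ v) (hd : 2 * v ≤ |d| * δ)
    (h : ∀ y, |y - x0| = δ → |f y - f x0 - d * (y - x0)| ≤ v / 2) :
    ∃ α, |x0 - α| ≤ δ ∧ f α = 0 := by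
  have h1 := abs_le.1 (h (x0 + δ) (by simp [abs_of_pos hδ]))
  have h2 := abs_le.1 (h (x0 - δ) (by simp [abs_of_pos hδ]))
  have h3 := abs_le.1 h0
  rcases le_or_gt 0 d with hd0 | hd0
  · rw [abs_of_nonneg hd0] at hd
    have e1 : 0 ≤ f (x0 + δ) := by nlinarith [h1.1, h1.2, h3.1, h3.2]
    have e2 : f (x0 - δ) ≤ 0 := by nlinarith [h2.1, h2.2, h3.1, h3.2]
    obtain ⟨α, hα, hα0⟩ := intermediate_value_Icc (by linarith : x0 - δ ≤ x0 + δ) hf.continuousOn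
      ⟨e2, e1⟩
    exact ⟨α, abs_le.2 ⟨by linarith [hα.2], by linarith [hα.1]⟩, hα0⟩
  · rw [abs_of_neg hd0] at hd
    have e1 : f (x0 + δ) ≤ 0 := by nlinarith [h1.1, h1.2, h3.1, h3.2]
    have e2 : 0 ≤ f (x0 - δ) := by nlinarith [h2.1, h2.2, h3.1, h3.2]
    obtain ⟨α, hα, hα0⟩ := intermediate_value_Icc' (by linarith : x0 - δ ≤ x0 + δ) hf.continuousOn
      ⟨e1, e2⟩
    exact ⟨α, abs_le.2 ⟨by linarith [hα.2], by linarith [hα.1]⟩, hα0⟩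

/-- value at a point near a root -/
theorem val_near {n : ℕ} {CK : ℝ} (hCK : 1 ≤ CK)
    (hK : ∀ (u : Fin (n + 1) → ℤ) (H : ℝ), (∀ i, |(u i : ℝ)| ≤ H) →
    (∀ k : ℕ, ∀ x ∈ Icc (-3 : ℝ) 3, |DD k u x| ≤ CK * H) ∧
    (∀ x ∈ Icc (-3 : ℝ) 3, ∀ y ∈ Icc (-3 : ℝ) 3,
      |DD 0 u y - DD 0 u x - DD 1 u x * (y - x)| ≤ CK * H * (y - x) ^ 2) ∧
    (∀ x ∈ Icc (-3 : ℝ) 3, ∀ y ∈ Icc (-3 : ℝ) 3,
      |DD 1 u y - DD 1 u x| ≤ CK * H * |y - x|)) (u : Fin (n + 1) → ℤ) (H : ℝ)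
    (hu : ∀ i, |(u i : ℝ)| ≤ H) (x0 α D : ℝ) (hx0 : x0 ∈ Icc (0 : ℝ) 1) (hα : DD 0 u α = 0)
    (hD : |x0 - α| ≤ D) (hD1 : D ≤ 1) : |DD 0 u x0| ≤ 2 * CK * H * D := by
  have hH : 0 ≤ H := (abs_nonneg _).trans (hu 0)
  obtain ⟨h1, h2, h3⟩ := hK u H hu
  have hx3 : x0 ∈ Icc (-3 : ℝ) 3 := ⟨by linarith [hx0.1], by linarith [hx0.2]⟩
  have hα3 : α ∈ Icc (-3 : ℝ) 3 := by
    have := abs_le.1 hD
    exact ⟨by linarith [hx0.1], by linarith [hx0.2]⟩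
  have e1 := h2 x0 hx3 α hα3
  have e2 := h1 1 x0 hx3
  rw [hα] at e1
  have e3 : |DD 0 u x0| ≤ |0 - DD 0 u x0 - DD 1 u x0 * (α - x0)| + |DD 1 u x0| * |x0 - α| := by
    have : DD 0 u x0 = -(0 - DD 0 u x0 - DD 1 u x0 * (α - x0)) + DD 1 u x0 * (x0 - α) := by ring
    calc |DD 0 u x0| = |-(0 - DD 0 u x0 - DD 1 u x0 * (α - x0)) + DD 1 u x0 * (x0 - α)| := by
          rw [← this]
      _ ≤ _ := by
          refine (abs_add_le _ _).trans ?_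
          rw [abs_neg, abs_mul]
  have e4 : (α - x0) ^ 2 ≤ D := by
    have : (α - x0) ^ 2 = |x0 - α| ^ 2 := by rw [sq_abs]; ring
    rw [this]
    nlinarith [abs_nonneg (x0 - α)]
  have e5 : |DD 1 u x0| * |x0 - α| ≤ CK * H * D :=
    mul_le_mul e2 hD (abs_nonneg _) (by positivity)
  have e6 : CK * H * (α - x0) ^ 2 ≤ CK * H * D := mul_le_mul_of_nonneg_left e4 (by positivity)
  linarith

end Pool.Agent.H680R3.EX
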