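import Mathlib
import Pool.Agent.H680R3.EX.Key1

open MeasureTheory Polynomial Set

namespace Pool.Agent.H680R3.EX

open Pool.Agent.Helper404 (toP castQ kmC)

/-- conclusion of TASK K for a given `n` and constant -/
def KB (n : ℕ) (CK : ℝ) : Prop := ∀ (u : Fin (n + 1) → ℤ) (H : ℝ), (∀ i, |(u i : ℝ)| ≤ H) →
    (∀ k : ℕ, ∀ x ∈ Icc (-3 : ℝ) 3, |DD k u x| ≤ CK * H) ∧
    (∀ x ∈ Icc (-3 : ℝ) 3, ∀ y ∈ Icc (-3 : ℝ) 3,
      |DD 0 u y - DD 0 u x - DD 1 u x * (y - x)| ≤ CK * H * (y - x) ^ 2) ∧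
    (∀ x ∈ Icc (-3 : ℝ) 3, ∀ y ∈ Icc (-3 : ℝ) 3,
      |DD 1 u y - DD 1 u x| ≤ CK * H * |y - x|)

theorem prim_eq {n : ℕ} {u g : Fin (n + 1) → ℤ} (hu : (toP u).IsPrimitive) (hg : (toP g).IsPrimitive)
    (h : ∀ a b, g a * u b = g b * u a) : ht u = ht g := by
  have key : ∀ b, (u b).natAbs = (g b).natAbs := by
    intro b
    have e : C (g b) * toP u = C (u b) * toP g := by
      unfold toP
      rw [Finset.mul_sum, Finset.mul_sum]
      refine Finset.sum_congr rfl (fun i _ => ?_)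
      rw [← mul_assoc, ← mul_assoc, ← C_mul, ← C_mul]
      congr 2
      rw [← h i b]; ring
    have e2 := congrArg content e
    rw [content_C_mul, content_C_mul, hu.content_eq_one, hg.content_eq_one, mul_one, mul_one,
      ← Int.abs_eq_normalize, ← Int.abs_eq_normalize] at e2
    rw [← Int.natAbs_abs, ← e2, Int.natAbs_abs]
  unfold ht
  simp only [key]

/-- two distinct roots of one polynomial near `x0` make the derivative small -/
theorem double_root {n : ℕ} {CK : ℝ} (hCK : 1 ≤ CK) (hK : KB n CK) (g : Fin (n + 1) → ℤ) (H : ℝ)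
    (hg : ∀ i, |(g i : ℝ)| ≤ H) (x0 α α' D : ℝ) (hx0 : x0 ∈ Icc (0 : ℝ) 1) (h1 : DD 0 g α = 0)
    (h2 : DD 0 g α' = 0) (hne : α ≠ α') (hD1 : D ≤ 1) (hD : |x0 - α| ≤ D) (hD' : |x0 - α'| ≤ D) :
    |DD 1 g x0| ≤ 3 * CK * H * D := by
  have hH : 0 ≤ H := (abs_nonneg _).trans (hg 0)
  obtain ⟨k1, k2, k3⟩ := hK g H hg
  have hx3 : x0 ∈ Icc (-3 : ℝ) 3 := ⟨by linarith [hx0.1], by linarith [hx0.2]⟩
  have hα3 : α ∈ Icc (-3 : ℝ) 3 := by
    have := abs_le.1 hD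
    exact ⟨by linarith [hx0.1], by linarith [hx0.2]⟩
  have hα3' : α' ∈ Icc (-3 : ℝ) 3 := by
    have := abs_le.1 hD'
    exact ⟨by linarith [hx0.1], by linarith [hx0.2]⟩
  have e1 := k2 α hα3 α' hα3'
  rw [h1, h2] at e1
  have e2 : |DD 1 g α| * |α' - α| ≤ CK * H * |α' - α| * |α' - α| := by
    have : |(0 : ℝ) - 0 - DD 1 g α * (α' - α)| = |DD 1 g α| * |α' - α| := by
      rw [← abs_mul, ← abs_neg]; congr 1; ring
    rw [this] at e1
    calc _ ≤ _ := e1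
      _ = CK * H * |α' - α| * |α' - α| := by rw [mul_assoc (CK * H), ← abs_mul, ← pow_two,
            abs_of_nonneg (sq_nonneg _)]
  have hpos : 0 < |α' - α| := abs_pos.2 (sub_ne_zero.2 (Ne.symm hne))
  have e3 : |DD 1 g α| ≤ CK * H * |α' - α| := le_of_mul_le_mul_right e2 hpos
  have e4 : |α' - α| ≤ 2 * D := by
    have : α' - α = (x0 - α) - (x0 - α') := by ring
    rw [this]
    exact (abs_sub _ _).trans (by linarith)
  have e5 := k3 x0 hx3 α hα3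
  have e6 : |α - x0| ≤ D := by rw [abs_sub_comm]; exact hD
  have e7 : |DD 1 g x0| ≤ |DD 1 g α - DD 1 g x0| + |DD 1 g α| := by
    have : DD 1 g x0 = DD 1 g α - (DD 1 g α - DD 1 g x0) := by ring
    calc |DD 1 g x0| = |DD 1 g α - (DD 1 g α - DD 1 g x0)| := by rw [← this]
      _ ≤ _ := by
          refine (abs_sub _ _).trans ?_
          linarith
  have e8 : CK * H * |α - x0| ≤ CK * H * D := mul_le_mul_of_nonneg_left e6 (by positivity)
  have e9 : CK * H * |α' - α| ≤ CK * H * (2 * D) := mul_le_mul_of_nonneg_left e4 (by positivity)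
  linarith

/-- the Wronskian estimate -/
theorem wron_small {n : ℕ} {CK : ℝ} (hCK : 1 ≤ CK) (hK : KB n CK) (P Q : Fin (n + 1) → ℤ) (H : ℝ)
    (hP : ∀ i, |(P i : ℝ)| ≤ H) (hQ : ∀ i, |(Q i : ℝ)| ≤ H)
    (x0 α α' D B : ℝ) (hx0 : x0 ∈ Icc (0 : ℝ) 1) (h1 : DD 0 P α = 0)
    (h2 : DD 0 Q α' = 0) (hD1 : D ≤ 1) (hD : |x0 - α| ≤ D) (hD' : |x0 - α'| ≤ D)
    (hB : |α' - α| ≤ B) :
    |DD 0 P x0 * DD 1 Q x0 - DD 1 P x0 * DD 0 Q x0| ≤ (CK * H) ^ 2 * (2 * D ^ 2 + B) := by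
  have hH : 0 ≤ H := (abs_nonneg _).trans (hP 0)
  obtain ⟨k1, k2, k3⟩ := hK P H hP
  obtain ⟨l1, l2, l3⟩ := hK Q H hQ
  have hx3 : x0 ∈ Icc (-3 : ℝ) 3 := ⟨by linarith [hx0.1], by linarith [hx0.2]⟩
  have hα3 : α ∈ Icc (-3 : ℝ) 3 := by
    have := abs_le.1 hD
    exact ⟨by linarith [hx0.1], by linarith [hx0.2]⟩
  have hα3' : α' ∈ Icc (-3 : ℝ) 3 := by
    have := abs_le.1 hD'
    exact ⟨by linarith [hx0.1], by linarith [hx0.2]⟩
  have hD0 : 0 ≤ D := (abs_nonneg _).trans hD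
  have hB0 : 0 ≤ B := (abs_nonneg _).trans hB
  have e1 := k2 x0 hx3 α hα3
  have e2 := l2 x0 hx3 α' hα3'
  rw [h1] at e1
  rw [h2] at e2
  have sq1 : (α - x0) ^ 2 ≤ D ^ 2 := by
    rw [← sq_abs (α - x0), abs_sub_comm]
    exact pow_le_pow_left₀ (abs_nonneg _) hD 2
  have sq2 : (α' - x0) ^ 2 ≤ D ^ 2 := by
    rw [← sq_abs (α' - x0), abs_sub_comm]
    exact pow_le_pow_left₀ (abs_nonneg _) hD' 2
  have hCH : 0 ≤ CK * H := by positivity
  have f1 : |0 - DD 0 P x0 - DD 1 P x0 * (α - x0)| ≤ CK * H * D ^ 2 :=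
    e1.trans (mul_le_mul_of_nonneg_left sq1 hCH)
  have f2 : |0 - DD 0 Q x0 - DD 1 Q x0 * (α' - x0)| ≤ CK * H * D ^ 2 :=
    e2.trans (mul_le_mul_of_nonneg_left sq2 hCH)
  have g1 := k1 1 x0 hx3
  have g2 := l1 1 x0 hx3
  have id : DD 0 P x0 * DD 1 Q x0 - DD 1 P x0 * DD 0 Q x0 =
      -((0 - DD 0 P x0 - DD 1 P x0 * (α - x0)) * DD 1 Q x0) +
      DD 1 P x0 * (0 - DD 0 Q x0 - DD 1 Q x0 * (α' - x0)) +
      DD 1 P x0 * DD 1 Q x0 * (α' - α) := by ring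
  rw [id]
  refine (abs_add_le _ _).trans ?_
  have b1 : |-((0 - DD 0 P x0 - DD 1 P x0 * (α - x0)) * DD 1 Q x0)| ≤
      (CK * H * D ^ 2) * (CK * H) := by
    rw [abs_neg, abs_mul]
    exact mul_le_mul f1 g2 (abs_nonneg _) (by positivity)
  have b2 : |DD 1 P x0 * (0 - DD 0 Q x0 - DD 1 Q x0 * (α' - x0))| ≤
      (CK * H) * (CK * H * D ^ 2) := by
    rw [abs_mul]
    exact mul_le_mul g1 f2 (abs_nonneg _) (by positivity)
  have b3 : |DD 1 P x0 * DD 1 Q x0 * (α' - α)| ≤ (CK * H) * (CK * H) * B := by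
    rw [abs_mul, abs_mul]
    exact mul_le_mul (mul_le_mul g1 g2 (abs_nonneg _) hCH) hB (abs_nonneg _) (by positivity)
  have b4 := abs_add_le (-((0 - DD 0 P x0 - DD 1 P x0 * (α - x0)) * DD 1 Q x0))
    (DD 1 P x0 * (0 - DD 0 Q x0 - DD 1 Q x0 * (α' - x0)))
  nlinarith

theorem root_transfer {n : ℕ} {u g : Fin (n + 1) → ℤ} (hu : u ≠ 0)
    (h : ∀ a b, g a * u b = g b * u a) {α : ℝ} (hα : DD 0 u α = 0) : DD 0 g α = 0 := by
  obtain ⟨b, hb⟩ := Function.ne_iff.1 hu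
  have e : (u b : ℝ) * DD 0 g α = g b * DD 0 u α := by
    rw [DD_zero_eq, DD_zero_eq, Finset.mul_sum, Finset.mul_sum]
    refine Finset.sum_congr rfl (fun i _ => ?_)
    have := h i b
    have h' : (g i : ℝ) * u b = g b * u i := by exact_mod_cast this
    rw [← mul_assoc, ← mul_assoc, ← h']; ring
  rw [hα, mul_zero] at e
  have hb' : (u b : ℝ) ≠ 0 := by exact_mod_cast hb
  exact (mul_eq_zero.1 e).resolve_left hb'

end Pool.Agent.H680R3.EX
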