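import Mathlib
import Pool.Agent.H680R3.EX.Key2

open MeasureTheory Polynomial Set

namespace Pool.Agent.H680R3.EX

open Pool.Agent.Helper404 (toP castQ kmC)

theorem rpow_neg_anti {a b s : ℝ} (ha : 0 < a) (hab : a ≤ b) (hs : 0 ≤ s) : b ^ (-s) ≤ a ^ (-s) :=
  Real.rpow_le_rpow_of_nonpos ha hab (by linarith)

theorem local_core {n : ℕ} (s c₁ c₂ : ℝ) (hs0 : 0 < s) (hc₁ : 0 < c₁)
    {CK : ℝ} (hCK : 1 ≤ CK) (hK : KB n CK)
    (N M' : ℕ) (γ c c3 C0 C1 φ A η W X D : ℝ) (hXD : D = 1 / X ^ (n + 1))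
    (x0 α : ℝ) (g : Fin (n + 1) → ℤ) (hg : Good n α g) (hx0 : x0 ∈ Icc (0 : ℝ) 1)
    (hX : 1 ≤ X) (hW : 2 ≤ W)
    (hα : |x0 - α| ≤ (W - 2) * D)
    (hgH : ∀ i, |(g i : ℝ)| ≤ C0 * X)
    (hgv : |DD 0 g x0| ≤ A / X ^ n)
    (hgd : φ * X ≤ |DD 1 g x0|)
    (hr : c₂ * (ht g : ℝ) ^ (-s) ≤ D)
    (hC0 : 0 < C0)
    (hC0A : C0 ≤ A) (hC1A : C1 ≤ A) (hC1A' : 2 * CK * C1 * W ≤ A)
    (hc3 : 0 < c3) (hc3c : c3 ≤ c) (hc3' : 4 * CK * c3 * W ≤ c)
    (x1 : W * D ≤ 1 / 2) (x2 : W * D < γ) (x3 : c₁ * (c3 * X) ^ (-s) ≤ D)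
    (x5 : (CK * A) ^ 2 * (2 * (W * D) ^ 2 + (c₂ * (ht g : ℝ) ^ (-s) + c₁ * (c3 * X) ^ (-s))) < η * D)
    (x6 : 3 * CK * C0 * (W * D) < φ)
    (hlow : ∀ (α' : ℝ) (u' : Fin (n + 1) → ℤ), Good n α' u' → N ≤ ht u' → ht u' < M' →
      c₁ * (ht u' : ℝ) ^ (-s) + γ ≤ |x0 - α'|)
    (hmid : ∀ (α' : ℝ) (u' : Fin (n + 1) → ℤ), Good n α' u' → M' ≤ ht u' →
      2 * c₁ * (ht u' : ℝ) ^ (-s) ≤ |x0 - α'|)
    (htight : Tight n c X x0)
    (hE : ∀ P Q : Fin (n + 1) → ℤ, (∃ a b, P a * Q b ≠ P b * Q a) →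
      (∀ i, |(P i : ℝ)| ≤ A * X) → (∀ i, |(Q i : ℝ)| ≤ A * X) →
      |DD 0 P x0| ≤ A / X ^ n → |DD 0 Q x0| ≤ A / X ^ n →
      η * X / X ^ n ≤ |DD 0 P x0 * DD 1 Q x0 - DD 1 P x0 * DD 0 Q x0|)
    (α' : ℝ) (u' : Fin (n + 1) → ℤ) (hu' : Good n α' u') (hNu : N ≤ ht u') (ξ : ℝ)
    (hξ1 : c₁ * (ht g : ℝ) ^ (-s) < ξ - α) (hξ2 : ξ - α < c₂ * (ht g : ℝ) ^ (-s))
    (hξ3 : |ξ - α'| < c₁ * (ht u' : ℝ) ^ (-s)) :
    C1 * X < ht u' ∧ |x0 - α'| ≤ W * D := by
  have hX0 : 0 < X := by linarith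
  have hXn : 0 < X ^ n := pow_pos hX0 n
  have hXn1 : 0 < X ^ (n + 1) := pow_pos hX0 _
  have hD : 0 < D := by rw [hXD]; positivity
  have hXDn : X * D = 1 / X ^ n := by
    rw [hXD, pow_succ]; field_simp
  have hht' : (1 : ℝ) ≤ ht u' := by exact_mod_cast ht_pos hu'.ne_zero
  set r' : ℝ := (ht u' : ℝ) ^ (-s) with hr'
  set r : ℝ := (ht g : ℝ) ^ (-s) with hrdef
  have hr'pos : 0 < r' := Real.rpow_pos_of_pos (by linarith) _
  have hrpos : 0 ≤ r := Real.rpow_nonneg (Nat.cast_nonneg _) _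
  have hξα : |x0 - ξ| ≤ (W - 1) * D := by
    have e : x0 - ξ = (x0 - α) - (ξ - α) := by ring
    have e2 : |ξ - α| ≤ D := by
      rw [abs_of_pos (lt_of_le_of_lt (by positivity) hξ1)]
      linarith
    rw [e]
    refine (abs_sub _ _).trans ?_
    linarith
  have hx0α' : |x0 - α'| < (W - 1) * D + c₁ * r' := by
    have e : x0 - α' = (x0 - ξ) + (ξ - α') := by ring
    rw [e]
    refine lt_of_le_of_lt (abs_add_le _ _) ?_
    linarith
  rcases le_or_gt (ht u' : ℝ) (c3 * X) with hle | hgt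
  · exfalso
    rcases lt_or_ge (ht u') M' with hM | hM
    · have := hlow α' u' hu' hNu hM
      have e1 : (W - 1) * D = W * D - D := by ring
      rw [e1] at hx0α'
      linarith
    · have h2 := hmid α' u' hu' hM
      have h3 : c₁ * r' < (W - 1) * D := by linarith
      have h4 : |x0 - α'| ≤ 2 * (W * D) := by
        have e1 : (W - 1) * D = W * D - D := by ring
        rw [e1] at hx0α' h3
        linarith
      have h5 := val_near hCK hK u' (c3 * X) (fun i => (abs_le_ht u' i).trans hle) x0 α'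
        (2 * (W * D)) hx0 hu'.DD h4 (by linarith)
      refine htight u' hu'.ne_zero ⟨fun i => (abs_le_ht u' i).trans (hle.trans
        (mul_le_mul_of_nonneg_right hc3c hX0.le)), h5.trans ?_⟩
      have : 2 * CK * (c3 * X) * (2 * (W * D)) = (4 * CK * c3 * W) * (X * D) := by ring
      rw [this, hXDn, mul_one_div]
      exact div_le_div_of_nonneg_right hc3' hXn.le
  · have hr'2 : c₁ * r' ≤ c₁ * (c3 * X) ^ (-s) :=
      mul_le_mul_of_nonneg_left (rpow_neg_anti (by positivity) hgt.le hs0.le) hc₁.le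
    have hWD : |x0 - α'| ≤ W * D := by
      have e1 : (W - 1) * D = W * D - D := by ring
      rw [e1] at hx0α'
      linarith
    refine ⟨?_, hWD⟩
    by_contra hcon
    push Not at hcon
    have hαW : |x0 - α| ≤ W * D := by
      have e1 : (W - 2) * D = W * D - 2 * D := by ring
      rw [e1] at hα
      linarith
    have hv := val_near hCK hK u' (C1 * X) (fun i => (abs_le_ht u' i).trans hcon) x0 α'
        (W * D) hx0 hu'.DD hWD (by linarith)
    by_cases hprop : ∃ a b, g a * u' b ≠ g b * u' a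
    · have hu'A : ∀ i, |(u' i : ℝ)| ≤ A * X := fun i => (abs_le_ht u' i).trans (hcon.trans
        (mul_le_mul_of_nonneg_right hC1A hX0.le))
      have hgA : ∀ i, |(g i : ℝ)| ≤ A * X := fun i => (hgH i).trans
        (mul_le_mul_of_nonneg_right hC0A hX0.le)
      have h1 := hE g u' hprop hgA hu'A hgv (hv.trans (by
          have : 2 * CK * (C1 * X) * (W * D) = (2 * CK * C1 * W) * (X * D) := by ring
          rw [this, hXDn, mul_one_div]
          exact div_le_div_of_nonneg_right hC1A' hXn.le))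
      have hB : |α' - α| ≤ c₂ * r + c₁ * (c3 * X) ^ (-s) := by
        have e : α' - α = (ξ - α) - (ξ - α') := by ring
        rw [e]
        refine (abs_sub _ _).trans ?_
        have : |ξ - α| ≤ c₂ * r := by
          rw [abs_of_pos (lt_of_le_of_lt (by positivity) hξ1)]
          linarith
        linarith
      have h2 := wron_small hCK hK g u' (A * X) hgA hu'A x0 α α' (W * D) _ hx0 hg.DD hu'.DD
        (by linarith) hαW hWD hB
      have h3 : η * X / X ^ n = η * D * X ^ 2 := by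
        rw [mul_div_assoc, ← mul_one_div X, ← hXDn]; ring
      rw [h3] at h1
      have h4 := h1.trans h2
      have h5 : (CK * (A * X)) ^ 2 * (2 * (W * D) ^ 2 + (c₂ * r + c₁ * (c3 * X) ^ (-s))) =
          (CK * A) ^ 2 * (2 * (W * D) ^ 2 + (c₂ * r + c₁ * (c3 * X) ^ (-s))) * X ^ 2 := by ring
      rw [h5] at h4
      have hX2 : 0 < X ^ 2 := by positivity
      have := le_of_mul_le_mul_right h4 hX2
      linarith
    · push Not at hprop
      have hht : ht u' = ht g := prim_eq hu'.2.1 hg.2.1 hprop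
      by_cases hαα : α = α'
      · subst hαα
        have : r' = r := by rw [hr', hrdef, hht]
        rw [this] at hξ3
        have := le_abs_self (ξ - α)
        linarith
      · have hroot := root_transfer hu'.ne_zero hprop hu'.DD
        have h1 := double_root hCK hK g (C0 * X) hgH x0 α α' (W * D) hx0 hg.DD hroot hαα
          (by linarith) hαW hWD
        have h2 : 3 * CK * (C0 * X) * (W * D) = 3 * CK * C0 * (W * D) * X := by ring
        rw [h2] at h1
        have h3 := hgd.trans h1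
        have h4 := le_of_mul_le_mul_right h3 hX0
        linarith

end Pool.Agent.H680R3.EX
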