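import Mathlib
import Pool.Agent.H680R3.EX.Key3

open MeasureTheory Polynomial Set Filter

namespace Pool.Agent.H680R3.EX

open Pool.Agent.Helper404 (toP castQ kmC)

theorem ev_D (n : ℕ) (κ : ℝ) (hκ : 0 < κ) : ∀ᶠ X : ℝ in atTop, 1 / X ^ (n + 1) < κ := by
  have : Tendsto (fun X : ℝ => 1 / X ^ (n + 1)) atTop (nhds 0) := by
    simp only [one_div]
    exact tendsto_inv_atTop_zero.comp (tendsto_pow_atTop (by omega))
  exact this.eventually (gt_mem_nhds hκ)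

theorem ev_E (n : ℕ) (s : ℝ) (hs : (n : ℝ) + 1 < s) (κ : ℝ) (hκ : 0 < κ) :
    ∀ᶠ X : ℝ in atTop, X ^ (-s) < κ * (1 / X ^ (n + 1)) := by
  have h1 : Tendsto (fun X : ℝ => X ^ (-(s - (n + 1)))) atTop (nhds 0) :=
    tendsto_rpow_neg_atTop (by linarith)
  filter_upwards [h1.eventually (gt_mem_nhds hκ), eventually_gt_atTop (0 : ℝ)] with X hX hX0
  have e : X ^ (-s) = X ^ (-(s - (n + 1))) * (1 / X ^ (n + 1)) := by
    rw [one_div, ← Real.rpow_natCast, ← Real.rpow_neg hX0.le, ← Real.rpow_add hX0]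
    congr 1
    push_cast
    ring
  rw [e]
  have : 0 < 1 / X ^ (n + 1) := by positivity
  exact mul_lt_mul_of_pos_right hX this

/-- the data at a good point -/
def Loc (n : ℕ) (s c₁ c₂ : ℝ) (N M : ℕ) (γ C0 C1 W X x0 : ℝ) : Prop :=
  ∃ (α : ℝ) (g : Fin (n + 1) → ℤ), Good n α g ∧ M ≤ ht g ∧ (ht g : ℝ) ≤ C0 * X ∧
    |x0 - α| + c₂ * (ht g : ℝ) ^ (-s) < γ ∧
    ∀ (α' : ℝ) (u' : Fin (n + 1) → ℤ), Good n α' u' → N ≤ ht u' → ∀ ξ : ℝ,
      c₁ * (ht g : ℝ) ^ (-s) < ξ - α → ξ - α < c₂ * (ht g : ℝ) ^ (-s) →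
      |ξ - α'| < c₁ * (ht u' : ℝ) ^ (-s) → C1 * X < ht u' ∧ |x0 - α'| ≤ W * (1 / X ^ (n + 1))

theorem local_key {n : ℕ} (hn : 1 ≤ n) (s c₁ c₂ : ℝ) (hs : (n : ℝ) + 1 < s) (hc₁ : 0 < c₁)
    (hc₂ : 0 < c₂) {CK : ℝ} (hCK : 1 ≤ CK) (hK : KB n CK) (hG : TaskG)
    (N M M' : ℕ) (γ c c3 C0 C1 φ A η W : ℝ) (hγ : 0 < γ) (hη : 0 < η) (hφ : 0 < φ)
    (hC0 : 1 ≤ C0) (hW : W = 2 * C0 / φ + 2)
    (hC0A : C0 ≤ A) (hC1A : C1 ≤ A) (hC1A' : 2 * CK * C1 * W ≤ A)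
    (hc3 : 0 < c3) (hc3c : c3 ≤ c) (hc3' : 4 * CK * c3 * W ≤ c) :
    ∀ᶠ X : ℝ in atTop, ∀ x0 ∈ Icc (0 : ℝ) 1,
    (∀ (α' : ℝ) (u' : Fin (n + 1) → ℤ), Good n α' u' → N ≤ ht u' → ht u' < M' →
      c₁ * (ht u' : ℝ) ^ (-s) + γ ≤ |x0 - α'|) →
    (∀ (α' : ℝ) (u' : Fin (n + 1) → ℤ), Good n α' u' → M' ≤ ht u' →
      2 * c₁ * (ht u' : ℝ) ^ (-s) ≤ |x0 - α'|) →
    Tight n c X x0 →
    (∀ u : Fin (n + 1) → ℤ, u ≠ 0 → (∀ i, |(u i : ℝ)| ≤ C0 * X) → |DD 0 u x0| ≤ C0 / X ^ n →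
      φ * X ≤ |DD 1 u x0|) →
    (∀ P Q : Fin (n + 1) → ℤ, (∃ a b, P a * Q b ≠ P b * Q a) →
      (∀ i, |(P i : ℝ)| ≤ A * X) → (∀ i, |(Q i : ℝ)| ≤ A * X) →
      |DD 0 P x0| ≤ A / X ^ n → |DD 0 Q x0| ≤ A / X ^ n →
      η * X / X ^ n ≤ |DD 0 P x0 * DD 1 Q x0 - DD 1 P x0 * DD 0 Q x0|) →
    (∃ u : Fin (n + 1) → ℤ, (∀ i, |(u i : ℝ)| ≤ C0 * X) ∧ |DD 0 u x0| ≤ C0 / X ^ n ∧
      u (Fin.last n) % 4 = 1 ∧ u 0 % 4 = 2 ∧ ∀ i, i ≠ 0 → i ≠ Fin.last n → u i % 4 = 0) →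
    Loc n s c₁ c₂ N M γ C0 C1 W X x0 := by
  have hs0 : 0 < s := by have : (0 : ℝ) ≤ n := Nat.cast_nonneg n; linarith
  have hCK0 : 0 < CK := by linarith
  have hC00 : 0 < C0 := by linarith
  have hA0 : 0 < A := by linarith
  have hW2 : 2 < W := by rw [hW]; have : 0 < 2 * C0 / φ := by positivity
                         linarith
  have hWm : W - 2 = 2 * C0 / φ := by rw [hW]; ring
  have hW0 : 0 < W := by linarith
  set k1 : ℝ := φ / CK with hk1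
  have hk10 : 0 < k1 := by positivity
  have hk1s : 0 < k1 ^ (-s) := Real.rpow_pos_of_pos hk10 _
  have hc3s : 0 < c3 ^ (-s) := Real.rpow_pos_of_pos hc3 _
  set S : ℝ := c₂ * k1 ^ (-s) + c₁ * c3 ^ (-s) with hS
  have hS0 : 0 < S := by positivity
  set L : ℝ := (CK * A) ^ 2 with hL
  have hL0 : 0 < L := by positivity
  filter_upwards [eventually_ge_atTop (1 : ℝ), ev_D n (1 / (2 * W)) (by positivity),
    ev_D n (γ / (2 * W)) (by positivity), ev_D n (φ / (3 * CK * C0 * W)) (by positivity),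
    ev_D n (1 / (2 * (CK * (2 * C0 / φ) ^ 2))) (by positivity),
    ev_D n (η / (4 * (L * W ^ 2))) (by positivity),
    eventually_ge_atTop ((M : ℝ) / k1),
    ev_E n s hs (1 / (c₂ * k1 ^ (-s))) (by positivity),
    ev_E n s hs (1 / (c₁ * c3 ^ (-s))) (by positivity),
    ev_E n s hs (η / (2 * (L * S))) (by positivity)] with X hX d1 d2 d3 d4 d5 hM e1 e2 e3
  intro x0 hx0 hlow hmid htight hA hE hF
  obtain ⟨u, hu1, hu2, hu3, hu4, hu5⟩ := hF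
  have hX0 : 0 < X := by linarith
  have hXn : 0 < X ^ n := pow_pos hX0 n
  set D : ℝ := 1 / X ^ (n + 1) with hD
  have hD0 : 0 < D := by positivity
  have hXDn : X * D = 1 / X ^ n := by
    rw [hD, pow_succ]; field_simp
  have hu0 : u ≠ 0 := by
    intro h
    rw [h] at hu3
    simp at hu3
  have f1 : W * D ≤ 1 / 2 := by
    rw [lt_div_iff₀ (by positivity)] at d1; linarith
  have f2 : W * D < γ / 2 := by
    rw [lt_div_iff₀ (by positivity)] at d2; linarith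
  have f3 : 3 * CK * C0 * (W * D) < φ := by
    rw [lt_div_iff₀ (by positivity)] at d3; linarith
  have f4 : CK * (2 * C0 / φ) ^ 2 * D ≤ 1 / 2 := by
    rw [lt_div_iff₀ (by positivity)] at d4; linarith
  have f5 : L * W ^ 2 * D < η / 4 := by
    rw [lt_div_iff₀ (by positivity)] at d5; linarith
  have f6 : (M : ℝ) ≤ k1 * X := by
    rw [div_le_iff₀ hk10] at hM; linarith
  have g1 : c₂ * (k1 * X) ^ (-s) ≤ D := by
    rw [Real.mul_rpow hk10.le hX0.le]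
    rw [one_div_mul_eq_div, lt_div_iff₀ (by positivity)] at e1
    linarith
  have g2 : c₁ * (c3 * X) ^ (-s) ≤ D := by
    rw [Real.mul_rpow hc3.le hX0.le]
    rw [one_div_mul_eq_div, lt_div_iff₀ (by positivity)] at e2
    linarith
  have g3 : L * (c₂ * (k1 * X) ^ (-s) + c₁ * (c3 * X) ^ (-s)) < η / 2 * D := by
    rw [Real.mul_rpow hk10.le hX0.le, Real.mul_rpow hc3.le hX0.le]
    rw [div_mul_eq_mul_div, lt_div_iff₀ (by positivity)] at e3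
    have : L * (c₂ * (k1 ^ (-s) * X ^ (-s)) + c₁ * (c3 ^ (-s) * X ^ (-s))) = L * S * X ^ (-s) := by
      rw [hS]; ring
    rw [this]
    linarith
  -- the root
  have hdu := hA u hu0 hu1 hu2
  have hx3 : x0 ∈ Icc (-3 : ℝ) 3 := ⟨by linarith [hx0.1], by linarith [hx0.2]⟩
  have hv : 0 < C0 / X ^ n := by positivity
  have hδ : 0 < (W - 2) * D := mul_pos (by linarith) hD0
  have hC0X : C0 / X ^ n = C0 * (X * D) := by rw [hXDn]; ring
  have hWD : (W - 2) * D ≤ W * D := by nlinarith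
  obtain ⟨α, hα1, hα2⟩ := exists_root (DD_cont 0 u) x0 (DD 1 u x0) (C0 / X ^ n) ((W - 2) * D)
    hv hδ hu2 (by
      rw [hC0X]
      calc 2 * (C0 * (X * D)) = φ * X * ((W - 2) * D) := by
            rw [hWm]; field_simp
        _ ≤ |DD 1 u x0| * ((W - 2) * D) := mul_le_mul_of_nonneg_right hdu hδ.le) (by
      intro y hy
      have hy' : |y - x0| ≤ 1 := by rw [hy]; linarith
      have hy3 : y ∈ Icc (-3 : ℝ) 3 := by
        have := abs_le.1 hy'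
        exact ⟨by linarith [hx0.1], by linarith [hx0.2]⟩
      refine ((hK u (C0 * X) hu1).2.1 x0 hx3 y hy3).trans ?_
      rw [← sq_abs (y - x0), hy, hC0X, hWm]
      have : CK * (C0 * X) * (2 * C0 / φ * D) ^ 2 = (CK * (2 * C0 / φ) ^ 2 * D) * (C0 * (X * D)) := by
        ring
      rw [this]
      have h0 : 0 ≤ C0 * (X * D) := by positivity
      nlinarith)
  obtain ⟨cg, g, hcg, hug, hgood⟩ := hG n hn u hu3 hu4 hu5 α (by rw [aeval_toP]; exact hα2)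
  have hcg1 : (1 : ℝ) ≤ |(cg : ℝ)| := by
    rw [← Int.cast_abs]
    exact_mod_cast Int.one_le_abs hcg
  have hgi : ∀ i, |(g i : ℝ)| ≤ C0 * X := by
    intro i
    have h1 := hu1 i
    rw [hug i] at h1
    push_cast at h1
    rw [abs_mul] at h1
    nlinarith [abs_nonneg (g i : ℝ)]
  have hgv : |DD 0 g x0| ≤ C0 / X ^ n := by
    have h1 := hu2
    rw [DD_smul 0 cg u g hug, abs_mul] at h1
    nlinarith [abs_nonneg (DD 0 g x0)]
  have hgd := hA g hgood.ne_zero hgi hgv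
  have hhtlow : k1 * X ≤ (ht g : ℝ) := by
    have h1 := (hK g (ht g) (abs_le_ht g)).1 1 x0 hx3
    have h2 := hgd.trans h1
    rw [hk1, div_mul_eq_mul_div, div_le_iff₀ hCK0]
    linarith
  have hr : (ht g : ℝ) ^ (-s) ≤ (k1 * X) ^ (-s) := rpow_neg_anti (by positivity) hhtlow hs0.le
  have hr1 : c₂ * (ht g : ℝ) ^ (-s) ≤ c₂ * (k1 * X) ^ (-s) := mul_le_mul_of_nonneg_left hr hc₂.le
  refine ⟨α, g, hgood, ?_, ht_le g hgi, ?_, ?_⟩
  · have : (M : ℝ) ≤ (ht g : ℝ) := f6.trans hhtlow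
    exact_mod_cast this
  · have : (W - 2) * D = W * D - 2 * D := by ring
    linarith
  · intro α' u' hu' hNu ξ hξ1 hξ2 hξ3
    refine local_core s c₁ c₂ hs0 hc₁ hCK hK N M' γ c c3 C0 C1 φ A η W X D hD x0 α g hgood hx0 hX
      hW2.le hα1 hgi (hgv.trans (div_le_div_of_nonneg_right hC0A hXn.le)) hgd (hr1.trans g1) hC00
      hC0A hC1A hC1A' hc3 hc3c hc3' f1 (by linarith) g2 ?_ f3 hlow hmid htight hE α' u' hu' hNu ξ
      hξ1 hξ2 hξ3
    rw [← hL]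
    have h1 : L * (2 * (W * D) ^ 2) = 2 * (L * W ^ 2 * D) * D := by ring
    have h2 : L * (2 * (W * D) ^ 2) < η / 2 * D := by
      rw [h1]
      nlinarith
    have h3 : L * (c₂ * (ht g : ℝ) ^ (-s) + c₁ * (c3 * X) ^ (-s)) ≤
        L * (c₂ * (k1 * X) ^ (-s) + c₁ * (c3 * X) ^ (-s)) :=
      mul_le_mul_of_nonneg_left (by linarith) hL0.le
    rw [mul_add]
    linarith

end Pool.Agent.H680R3.EX
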