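import Mathlib
import Pool.Agent.H680R3.EX.Key4

open MeasureTheory Polynomial Set Filter

namespace Pool.Agent.H680R3.EX

open Pool.Agent.Helper404 (toP castQ kmC)

theorem pairs {n : ℕ} (U : Set (Fin (n + 1) → ℤ)) (hU : U.Finite) :
    {p : ℝ × (Fin (n + 1) → ℤ) | Good n p.1 p.2 ∧ p.2 ∈ U}.Finite ∧
    {p : ℝ × (Fin (n + 1) → ℤ) | Good n p.1 p.2 ∧ p.2 ∈ U}.ncard ≤ n * U.ncard := by
  classical
  set B : Finset (Fin (n + 1) → ℤ) := hU.toFinset with hB
  let F : Finset (ℝ × (Fin (n + 1) → ℤ)) :=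
    (B.filter (fun u => (toP u).natDegree = n)).biUnion
      (fun u => ((toP u).aroots ℝ).toFinset.image (fun α => (α, u)))
  have hsub : {p : ℝ × (Fin (n + 1) → ℤ) | Good n p.1 p.2 ∧ p.2 ∈ U} ⊆ ↑F := by
    rintro ⟨α, u⟩ ⟨⟨h1, h2, h3, h4⟩, h5⟩
    simp only at h1 h2 h3 h4 h5
    simp only [F, B, Finset.coe_biUnion, Finset.mem_coe, mem_iUnion, Finset.coe_image,
      Finset.mem_filter, Set.Finite.mem_toFinset]
    refine ⟨u, ⟨h5, h3⟩, ?_⟩
    refine ⟨α, ?_, rfl⟩
    simp only [Finset.mem_coe, Multiset.mem_toFinset]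
    rw [mem_aroots]
    exact ⟨h2.ne_zero, h4⟩
  have hc : F.card ≤ n * U.ncard := by
    refine (Finset.card_biUnion_le).trans ?_
    calc ∑ u ∈ B.filter (fun u => (toP u).natDegree = n),
          (((toP u).aroots ℝ).toFinset.image (fun α => (α, u))).card
        ≤ ∑ u ∈ B.filter (fun u => (toP u).natDegree = n), n := by
          refine Finset.sum_le_sum (fun u hu => ?_)
          refine Finset.card_image_le.trans ((Multiset.toFinset_card_le _).trans ?_)
          refine (card_roots' _).trans (natDegree_map_le.trans ?_)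
          exact (Finset.mem_filter.1 hu).2.le
      _ = (B.filter (fun u => (toP u).natDegree = n)).card * n := by
          rw [Finset.sum_const, smul_eq_mul]
      _ ≤ B.card * n := Nat.mul_le_mul_right _ (Finset.card_filter_le _ _)
      _ = n * U.ncard := by rw [hB, ← Set.ncard_eq_toFinset_card U hU, mul_comm]
  refine ⟨F.finite_toSet.subset hsub, ?_⟩
  refine (Set.ncard_le_ncard hsub F.finite_toSet).trans ?_
  rw [Set.ncard_coe_finset]
  exact hc

theorem box_finite (n : ℕ) (H : ℕ) : {u : Fin (n + 1) → ℤ | ht u < H}.Finite := by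
  have : {u : Fin (n + 1) → ℤ | ht u < H} ⊆ Set.pi univ (fun _ => Set.Icc (-(H : ℤ)) H) := by
    intro u hu i _
    have : (u i).natAbs ≤ ht u := Finset.le_sup (f := fun i => (u i).natAbs) (Finset.mem_univ i)
    have hu' : ht u < H := hu
    simp only [Set.mem_Icc]
    omega
  exact (Set.Finite.pi' (fun _ => Set.finite_Icc _ _)).subset (fun u hu i => this hu i (mem_univ i))

/-- points of the good set with a gap `γ` -/
def Gap (n : ℕ) (s c₁ : ℝ) (N M' : ℕ) (a b γ : ℝ) : Set ℝ :=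
  {ξ ∈ Ioo a b \ Bad n s c₁ N | a + γ ≤ ξ ∧ ξ ≤ b - γ ∧
    ∀ (α' : ℝ) (u' : Fin (n + 1) → ℤ), Good n α' u' → N ≤ ht u' → ht u' < M' →
      c₁ * (ht u' : ℝ) ^ (-s) + γ ≤ |ξ - α'|}

theorem gap {n : ℕ} (s c₁ : ℝ) (N M' : ℕ) (a b : ℝ)
    (hvol : volume (Ioo a b \ Bad n s c₁ N) ≠ 0) :
    ∃ γ : ℝ, 0 < γ ∧
      volume (Ioo a b \ Bad n s c₁ N) / 2 < volume (Gap n s c₁ N M' a b γ) := by
  set F : Set ℝ := Ioo a b \ Bad n s c₁ N with hF
  have hfin : volume F ≠ ⊤ := ((measure_mono diff_subset).trans_lt (by simp)).ne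
  let T : Set (ℝ × (Fin (n + 1) → ℤ)) := {p | Good n p.1 p.2 ∧ p.2 ∈ {u | ht u < M'}}
  have hT : T.Finite := (pairs _ (box_finite n M')).1
  let E : Set ℝ := ⋃ p ∈ T, {p.1 + c₁ * (ht p.2 : ℝ) ^ (-s), p.1 - c₁ * (ht p.2 : ℝ) ^ (-s)}
  have hE : E.Finite := hT.biUnion (fun p _ => (Set.finite_singleton _).insert _)
  let Fm : ℕ → Set ℝ := fun m => Gap n s c₁ N M' a b (1 / ((m : ℝ) + 1))
  have hmono : Monotone Fm := by
    intro m m' hmm ξ hξ
    have h1 : 1 / ((m' : ℝ) + 1) ≤ 1 / ((m : ℝ) + 1) := by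
      apply one_div_le_one_div_of_le (by positivity)
      have : (m : ℝ) ≤ m' := by exact_mod_cast hmm
      linarith
    obtain ⟨g1, g2, g3, g4⟩ := hξ
    refine ⟨g1, by linarith, by linarith, fun α' u' h2 h3 h4 => ?_⟩
    have := g4 α' u' h2 h3 h4
    linarith
  have htend : Tendsto (fun m : ℕ => 1 / ((m : ℝ) + 1)) atTop (nhds 0) :=
    tendsto_one_div_add_atTop_nhds_zero_nat
  have hcov : F ⊆ (⋃ m, Fm m) ∪ E := by
    intro ξ hξ
    by_cases hξE : ξ ∈ E
    · exact Or.inr hξE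
    left
    have h1 : ∀ᶠ m : ℕ in atTop, ∀ p ∈ T, N ≤ ht p.2 →
        c₁ * (ht p.2 : ℝ) ^ (-s) + 1 / ((m : ℝ) + 1) ≤ |ξ - p.1| := by
      rw [Filter.eventually_all_finite hT]
      intro p hp
      by_cases hN : N ≤ ht p.2
      · have hge : c₁ * (ht p.2 : ℝ) ^ (-s) ≤ |ξ - p.1| := by
          by_contra hlt
          push Not at hlt
          exact hξ.2 ⟨p.1, p.2, hp.1, hN, hlt⟩
        have hne : c₁ * (ht p.2 : ℝ) ^ (-s) ≠ |ξ - p.1| := by
          intro he
          apply hξE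
          simp only [E, mem_iUnion]
          refine ⟨p, hp, ?_⟩
          rcases abs_choice (ξ - p.1) with h | h
          · left; linarith
          · right; simp only [mem_singleton_iff]; linarith
        have hlt : 0 < |ξ - p.1| - c₁ * (ht p.2 : ℝ) ^ (-s) := by
          have := lt_of_le_of_ne hge hne
          linarith
        filter_upwards [htend.eventually (gt_mem_nhds hlt)] with m hm _
        linarith
      · exact Filter.Eventually.of_forall (fun m h => absurd h hN)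
    have h2 : ∀ᶠ m : ℕ in atTop, 1 / ((m : ℝ) + 1) < ξ - a :=
      htend.eventually (gt_mem_nhds (by linarith [hξ.1.1]))
    have h3 : ∀ᶠ m : ℕ in atTop, 1 / ((m : ℝ) + 1) < b - ξ :=
      htend.eventually (gt_mem_nhds (by linarith [hξ.1.2]))
    obtain ⟨m, m1, m2, m3⟩ := (h1.and (h2.and h3)).exists
    simp only [mem_iUnion]
    refine ⟨m, hξ, by linarith, by linarith, fun α' u' k1 k2 k3 => m1 (α', u') ⟨k1, k3⟩ k2⟩
  have hle : volume F ≤ volume (⋃ m, Fm m) := by
    refine (measure_mono hcov).trans ((measure_union_le _ _).trans ?_)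
    rw [hE.measure_zero, add_zero]
  rw [hmono.measure_iUnion] at hle
  have hlt : volume F / 2 < ⨆ m, volume (Fm m) := lt_of_lt_of_le (ENNReal.half_lt_self hvol hfin) hle
  obtain ⟨m, hm⟩ := lt_iSup_iff.1 hlt
  exact ⟨1 / ((m : ℝ) + 1), by positivity, hm⟩

end Pool.Agent.H680R3.EX
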