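import Mathlib
import Pool.Agent.H680R3.EX.Key5

open MeasureTheory Polynomial Set Filter

namespace Pool.Agent.H680R3.EX

open Pool.Agent.Helper404 (toP castQ kmC)

/-- the final step: from local data at `x0` to positive measure -/
theorem finish {n : ℕ} (s c₁ c₂ : ℝ) (hs0 : 0 < s) (hc₁ : 0 < c₁) (hc : c₁ < c₂)
    {CK : ℝ} (hCK : 1 ≤ CK) (hK : KB n CK)
    (N M : ℕ) (a b γ C0 C1 W X x0 KH G B : ℝ) (hx0 : x0 ∈ Icc (0 : ℝ) 1)
    (hax : a + γ ≤ x0) (hxb : x0 ≤ b - γ)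
    (hX : 1 ≤ X) (hC0 : 1 ≤ C0) (hC1 : 1 ≤ C1) (hW : 2 ≤ W) (hWD : W * (1 / X ^ (n + 1)) ≤ 1)
    (hB : B = 2 * CK * W) (hKH : 0 < KH)
    (hH : ∀ t : ℝ, 1 ≤ t →
      {u : Fin (n + 1) → ℤ | (∀ i, |(u i : ℝ)| ≤ B * t * X) ∧ |DD 0 u x0| ≤ B * t / X ^ n}.Finite ∧
      ({u : Fin (n + 1) → ℤ | (∀ i, |(u i : ℝ)| ≤ B * t * X) ∧
        |DD 0 u x0| ≤ B * t / X ^ n}.ncard : ℝ) ≤ KH * t ^ (n + 1))
    (hI : ∀ T K : ℝ, 0 < T → 0 ≤ K → ∀ S : Set (ℝ × (Fin (n + 1) → ℤ)),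
      (∀ p ∈ S, T ≤ (ht p.2 : ℝ)) →
      (∀ k : ℕ, {p ∈ S | (ht p.2 : ℝ) ≤ 2 ^ k * T}.Finite ∧
        ({p ∈ S | (ht p.2 : ℝ) ≤ 2 ^ k * T}.ncard : ℝ) ≤ K * (2 ^ k) ^ (n + 1)) →
      volume (⋃ p ∈ S, {ξ : ℝ | |ξ - p.1| < c₁ * (ht p.2 : ℝ) ^ (-s)}) ≤
        ENNReal.ofReal (G * K * T ^ (-s)))
    (hC1s : G * (n * KH * C1 ^ (n + 1)) * C1 ^ (-s) < (c₂ - c₁) * C0 ^ (-s))
    (hloc : Loc n s c₁ c₂ N M γ C0 C1 W X x0) :
    ∃ (α : ℝ) (u : Fin (n + 1) → ℤ), Good n α u ∧ M ≤ ht u ∧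
      volume ({ξ ∈ Ioo a b | |ξ - α| < c₂ * (ht u : ℝ) ^ (-s)} \ Bad n s c₁ N) ≠ 0 := by
  obtain ⟨α, g, hg, hM, hgC, hγ, hkey⟩ := hloc
  refine ⟨α, g, hg, hM, fun hzero => ?_⟩
  have hX0 : 0 < X := by linarith
  have hXn : 0 < X ^ n := pow_pos hX0 n
  set D : ℝ := 1 / X ^ (n + 1) with hD
  have hD0 : 0 < D := by positivity
  have hXDn : X * D = 1 / X ^ n := by
    rw [hD, pow_succ]; field_simp
  set r : ℝ := (ht g : ℝ) ^ (-s) with hr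
  have hg1 : (1 : ℝ) ≤ ht g := by exact_mod_cast ht_pos hg.ne_zero
  have hr0 : 0 < r := Real.rpow_pos_of_pos (by linarith) _
  have hB1 : 1 ≤ B := by rw [hB]; nlinarith
  let S : Set (ℝ × (Fin (n + 1) → ℤ)) :=
    {p | Good n p.1 p.2 ∧ C1 * X ≤ ht p.2 ∧ |x0 - p.1| ≤ W * D}
  have hIS := hI (C1 * X) (n * KH * C1 ^ (n + 1)) (by positivity) (by positivity) S
    (fun p hp => hp.2.1) (by
      intro k
      have ht1 : (1 : ℝ) ≤ C1 * 2 ^ k := by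
        have : (1 : ℝ) ≤ 2 ^ k := one_le_pow₀ (by norm_num)
        nlinarith
      obtain ⟨f1, f2⟩ := hH (C1 * 2 ^ k) ht1
      obtain ⟨p1, p2⟩ := pairs _ f1
      have hsub : {p ∈ S | (ht p.2 : ℝ) ≤ 2 ^ k * (C1 * X)} ⊆
          {p : ℝ × (Fin (n + 1) → ℤ) | Good n p.1 p.2 ∧ p.2 ∈
            {u : Fin (n + 1) → ℤ | (∀ i, |(u i : ℝ)| ≤ B * (C1 * 2 ^ k) * X) ∧
              |DD 0 u x0| ≤ B * (C1 * 2 ^ k) / X ^ n}} := by
        rintro p ⟨hpS, hpk⟩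
        refine ⟨hpS.1, fun i => ?_, ?_⟩
        · have h1 := (abs_le_ht p.2 i).trans hpk
          have h2 : (2 : ℝ) ^ k * (C1 * X) ≤ B * (C1 * 2 ^ k) * X := by
            have : 0 ≤ (2 : ℝ) ^ k * (C1 * X) := by positivity
            nlinarith
          exact h1.trans h2
        · have h1 := val_near hCK hK p.2 (2 ^ k * (C1 * X)) (fun i => (abs_le_ht p.2 i).trans hpk)
            x0 p.1 (W * D) hx0 hpS.1.DD hpS.2.2 hWD
          refine h1.trans (le_of_eq ?_)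
          have : 2 * CK * (2 ^ k * (C1 * X)) * (W * D) = B * (C1 * 2 ^ k) * (X * D) := by
            rw [hB]; ring
          rw [this, hXDn]; ring
      refine ⟨p1.subset hsub, ?_⟩
      have h3 := (Set.ncard_le_ncard hsub p1).trans p2
      have h4 : ({p ∈ S | (ht p.2 : ℝ) ≤ 2 ^ k * (C1 * X)}.ncard : ℝ) ≤
          n * ({u : Fin (n + 1) → ℤ | (∀ i, |(u i : ℝ)| ≤ B * (C1 * 2 ^ k) * X) ∧
              |DD 0 u x0| ≤ B * (C1 * 2 ^ k) / X ^ n}.ncard : ℝ) := by exact_mod_cast h3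
      refine h4.trans ?_
      calc (n : ℝ) * _ ≤ n * (KH * (C1 * 2 ^ k) ^ (n + 1)) :=
            mul_le_mul_of_nonneg_left f2 (Nat.cast_nonneg _)
        _ = _ := by rw [mul_pow]; ring)
  have hsub : Ioo (α + c₁ * r) (α + c₂ * r) ⊆
      ({ξ ∈ Ioo a b | |ξ - α| < c₂ * r} \ Bad n s c₁ N) ∪
      (⋃ p ∈ S, {ξ : ℝ | |ξ - p.1| < c₁ * (ht p.2 : ℝ) ^ (-s)}) := by
    intro ξ hξ
    have hξ1 : c₁ * r < ξ - α := by linarith [hξ.1]
    have hξ2 : ξ - α < c₂ * r := by linarith [hξ.2]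
    by_cases hbad : ξ ∈ Bad n s c₁ N
    · right
      obtain ⟨α', u', hu', hNu, hξ3⟩ := hbad
      obtain ⟨k1, k2⟩ := hkey α' u' hu' hNu ξ hξ1 hξ2 hξ3
      simp only [mem_iUnion]
      exact ⟨(α', u'), ⟨hu', k1.le, k2⟩, hξ3⟩
    · left
      have habs : |ξ - α| < c₂ * r := by
        rw [abs_of_pos (lt_trans (by positivity) hξ1)]; exact hξ2
      have habs2 : |x0 - ξ| < γ := by
        have e : x0 - ξ = (x0 - α) - (ξ - α) := by ring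
        rw [e]
        refine lt_of_le_of_lt (abs_sub _ _) ?_
        linarith
      have := abs_lt.1 habs2
      exact ⟨⟨⟨by linarith, by linarith⟩, habs⟩, hbad⟩
  have h1 := measure_mono (μ := volume) hsub
  rw [Real.volume_Ioo] at h1
  have h2 := h1.trans (measure_union_le _ _)
  rw [hzero, zero_add] at h2
  have h3 := h2.trans hIS
  have h4 : G * (n * KH * C1 ^ (n + 1)) * (C1 * X) ^ (-s) < (α + c₂ * r) - (α + c₁ * r) := by
    have e1 : (C1 * X) ^ (-s) = C1 ^ (-s) * X ^ (-s) := Real.mul_rpow (by linarith) hX0.le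
    have e2 : C0 ^ (-s) * X ^ (-s) ≤ r := by
      rw [← Real.mul_rpow (by linarith) hX0.le]
      exact rpow_neg_anti (by linarith) hgC hs0.le
    have e3 : 0 < X ^ (-s) := Real.rpow_pos_of_pos hX0 _
    have e4 := mul_lt_mul_of_pos_right hC1s e3
    rw [e1]
    have e5 : (c₂ - c₁) * (C0 ^ (-s) * X ^ (-s)) ≤ (c₂ - c₁) * r :=
      mul_le_mul_of_nonneg_left e2 (by linarith)
    calc G * (n * KH * C1 ^ (n + 1)) * (C1 ^ (-s) * X ^ (-s)) =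
        G * (n * KH * C1 ^ (n + 1)) * C1 ^ (-s) * X ^ (-s) := by ring
      _ < (c₂ - c₁) * C0 ^ (-s) * X ^ (-s) := e4
      _ ≤ (c₂ - c₁) * r := by rw [mul_assoc]; exact e5
      _ = _ := by ring
  have h5 : ENNReal.ofReal (G * (n * KH * C1 ^ (n + 1)) * (C1 * X) ^ (-s)) <
      ENNReal.ofReal ((α + c₂ * r) - (α + c₁ * r)) := by
    refine (ENNReal.ofReal_lt_ofReal_iff ?_).2 h4
    have : (c₂ - c₁) * r > 0 := mul_pos (by linarith) hr0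
    linarith
  exact absurd h3 (not_le.2 h5)

theorem key_of (hA : TaskA) (hE : TaskE) (hF : TaskF) (hG : TaskG) (hH : TaskH) (hI : TaskI)
    (hJ : TaskJ) (hK : TaskK) : Key := by
  intro n hn s c₁ c₂ hs hc₁ hc N hN a b ha hb hvol M
  have hn1 : 1 ≤ n := by omega
  have hs0 : 0 < s := by have : (0 : ℝ) ≤ n := Nat.cast_nonneg n; linarith
  set F : Set ℝ := Ioo a b \ Bad n s c₁ N with hFdef
  have hfin : volume F ≠ ⊤ := ((measure_mono sdiff_subset).trans_lt (by simp)).ne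
  set m : ℝ := (volume F).toReal with hm
  have hm0 : 0 < m := ENNReal.toReal_pos hvol hfin
  have hε : 0 < m / 16 := by positivity
  have hmF : volume F = ENNReal.ofReal m := (ENNReal.ofReal_toReal hfin).symm
  obtain ⟨M', hM'1, hM'⟩ := hJ n hn1 s (2 * c₁) hs (by positivity) (m / 16) hε
  obtain ⟨γ, hγ, hgap⟩ := gap s c₁ N M' a b hvol
  obtain ⟨CK, hCK, hKB⟩ := hK n
  obtain ⟨φ1, hφ1, X1, hX1⟩ := hA n hn (m / 16) 1 hε le_rfl
  set c : ℝ := min 1 (φ1 / (2 * CK)) with hcdef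
  have hc0 : 0 < c := lt_min one_pos (by positivity)
  have hc1 : c ≤ 1 := min_le_left _ _
  have hcφ : CK * c < φ1 := by
    have : c ≤ φ1 / (2 * CK) := min_le_right _ _
    rw [le_div_iff₀ (by positivity)] at this
    nlinarith
  obtain ⟨C0, hC0, hFz⟩ := hF n hn1 c hc0 hc1
  obtain ⟨φ, hφ, X2, hX2⟩ := hA n hn (m / 16) C0 hε hC0
  set W : ℝ := 2 * C0 / φ + 2 with hW
  have hW2 : 2 ≤ W := by
    have : 0 < 2 * C0 / φ := by positivity
    linarith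
  set B : ℝ := 2 * CK * W with hB
  have hB1 : 1 ≤ B := by nlinarith
  obtain ⟨KH, hKH, hHz⟩ := hH n hn1 c B hc0 hc1 hB1
  obtain ⟨G, hG0, hIz⟩ := hI n s c₁ hs hc₁
  have hC0s : 0 < C0 ^ (-s) := Real.rpow_pos_of_pos (by linarith) _
  have hn0 : (0 : ℝ) < n := by exact_mod_cast hn1
  obtain ⟨C1, hC1, hC1s'⟩ := ((eventually_ge_atTop (1 : ℝ)).and
    (ev_E n s hs ((c₂ - c₁) * C0 ^ (-s) / (G * (n * KH)))
      (div_pos (mul_pos (by linarith) hC0s) (by positivity)))).exists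
  have hC1s : G * (n * KH * C1 ^ (n + 1)) * C1 ^ (-s) < (c₂ - c₁) * C0 ^ (-s) := by
    have hC1pos : 0 < C1 := by linarith
    rw [mul_one_div, lt_div_iff₀ (by positivity), lt_div_iff₀ (by positivity)] at hC1s'
    linarith
  set c3 : ℝ := c / (4 * CK * W) with hc3
  have hc30 : 0 < c3 := by positivity
  have hc3' : 4 * CK * c3 * W ≤ c := by
    rw [hc3]; apply le_of_eq; field_simp
  have hc3c : c3 ≤ c := by
    rw [hc3]; apply div_le_self hc0.le; nlinarith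
  set A : ℝ := C0 + C1 + 2 * CK * C1 * W with hAdef
  have hprod : 0 ≤ 2 * CK * C1 * W := by positivity
  obtain ⟨η, hη, X3, hX3⟩ := hE n hn (m / 16) A hε (by linarith)
  obtain ⟨X, hloc, hX, hXX1, hXX2, hXX3, hXW⟩ :=
    ((local_key hn1 s c₁ c₂ hs hc₁ (by linarith) hCK hKB hG N M M' γ c c3 C0 C1 φ A η W hγ hη hφ hC0
      hW (by linarith) (by linarith) (by linarith) hc30 hc3c hc3').and
      ((eventually_ge_atTop (1 : ℝ)).and ((eventually_ge_atTop X1).and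
        ((eventually_ge_atTop X2).and ((eventually_ge_atTop X3).and
          (ev_D n (1 / W) (by positivity))))))).exists
  have hX0 : 0 < X := by linarith
  have hXn : 0 < X ^ n := pow_pos hX0 n
  -- choose the point
  set B1 : Set ℝ := {ξ ∈ Icc (-1 : ℝ) 2 | ∃ (α : ℝ) (u : Fin (n + 1) → ℤ), Good n α u ∧
    M' ≤ ht u ∧ |ξ - α| < 2 * c₁ * (ht u : ℝ) ^ (-s)} with hB1def
  set B2 : Set ℝ := {z ∈ Ico (-1 : ℝ) 2 | ∃ u : Fin (n + 1) → ℤ, u ≠ 0 ∧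
    (∀ i, |(u i : ℝ)| ≤ 1 * X) ∧ |DD 0 u z| ≤ 1 / X ^ n ∧ |DD 1 u z| < φ1 * X} with hB2def
  set B3 : Set ℝ := {z ∈ Ico (-1 : ℝ) 2 | ∃ u : Fin (n + 1) → ℤ, u ≠ 0 ∧
    (∀ i, |(u i : ℝ)| ≤ C0 * X) ∧ |DD 0 u z| ≤ C0 / X ^ n ∧ |DD 1 u z| < φ * X} with hB3def
  set B4 : Set ℝ := {z ∈ Ico (-1 : ℝ) 2 | ∃ P Q : Fin (n + 1) → ℤ,
    (∃ a b, P a * Q b ≠ P b * Q a) ∧
    (∀ i, |(P i : ℝ)| ≤ A * X) ∧ (∀ i, |(Q i : ℝ)| ≤ A * X) ∧
    |DD 0 P z| ≤ A / X ^ n ∧ |DD 0 Q z| ≤ A / X ^ n ∧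
    |DD 0 P z * DD 1 Q z - DD 1 P z * DD 0 Q z| < η * X / X ^ n} with hB4def
  have hex : ∃ x0, x0 ∈ Gap n s c₁ N M' a b γ ∧ x0 ∉ B1 ∧ x0 ∉ B2 ∧ x0 ∉ B3 ∧ x0 ∉ B4 := by
    by_contra hcon
    push Not at hcon
    have hsub : Gap n s c₁ N M' a b γ ⊆ B1 ∪ (B2 ∪ (B3 ∪ B4)) := by
      intro x hx
      by_contra hx'
      simp only [mem_union, not_or] at hx'
      exact hx'.2.2.2 (hcon x hx hx'.1 hx'.2.1 hx'.2.2.1)
    have h1 : volume (Gap n s c₁ N M' a b γ) ≤ ENNReal.ofReal (m / 16) + (ENNReal.ofReal (m / 16) +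
        (ENNReal.ofReal (m / 16) + ENNReal.ofReal (m / 16))) := by
      refine (measure_mono hsub).trans ((measure_union_le _ _).trans (add_le_add hM' ?_))
      refine (measure_union_le _ _).trans (add_le_add (hX1 X hXX1) ?_)
      exact (measure_union_le _ _).trans (add_le_add (hX2 X hXX2) (hX3 X hXX3))
    rw [← ENNReal.ofReal_add (by positivity) (by positivity),
      ← ENNReal.ofReal_add (by positivity) (by positivity),
      ← ENNReal.ofReal_add (by positivity) (by positivity)] at h1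
    have h2 := lt_of_lt_of_le hgap h1
    rw [← hFdef, hmF, ← ENNReal.ofReal_ofNat 2, ← ENNReal.ofReal_div_of_pos (by norm_num),
      ENNReal.ofReal_lt_ofReal_iff (by positivity)] at h2
    linarith
  obtain ⟨x0, hgap0, hb1, hb2, hb3, hb4⟩ := hex
  have hx0 : x0 ∈ Icc (0 : ℝ) 1 := ⟨by linarith [hgap0.1.1.1], by linarith [hgap0.1.1.2]⟩
  have hx0' : x0 ∈ Icc (-1 : ℝ) 2 := ⟨by linarith [hx0.1], by linarith [hx0.2]⟩
  have hx0'' : x0 ∈ Ico (-1 : ℝ) 2 := ⟨by linarith [hx0.1], by linarith [hx0.2]⟩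
  have hx3 : x0 ∈ Icc (-3 : ℝ) 3 := ⟨by linarith [hx0.1], by linarith [hx0.2]⟩
  have htight : Tight n c X x0 := by
    rintro u hu ⟨h1, h2⟩
    apply hb2
    refine ⟨hx0'', u, hu, fun i => (h1 i).trans ?_, h2.trans ?_, ?_⟩
    · exact mul_le_mul_of_nonneg_right hc1 hX0.le
    · exact div_le_div_of_nonneg_right hc1 hXn.le
    · refine lt_of_le_of_lt ((hKB u (c * X) h1).1 1 x0 hx3) ?_
      rw [← mul_assoc]
      exact mul_lt_mul_of_pos_right hcφ hX0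
  have hL := hloc x0 hx0 hgap0.2.2.2 (by
      intro α' u' hu' hMu
      by_contra hlt
      push Not at hlt
      exact hb1 ⟨hx0', α', u', hu', hMu, hlt⟩) htight (by
      intro u hu h1 h2
      by_contra hlt
      push Not at hlt
      exact hb3 ⟨hx0'', u, hu, h1, h2, hlt⟩) (by
      intro P Q h0 h1 h2 h3 h4
      by_contra hlt
      push Not at hlt
      exact hb4 ⟨hx0'', P, Q, h0, h1, h2, h3, h4, hlt⟩) (hFz x0 hx0' X hX htight)
  refine finish s c₁ c₂ hs0 hc₁ hc hCK hKB N M a b γ C0 C1 W X x0 KH G B hx0 hgap0.2.1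
    hgap0.2.2.1 hX hC0 hC1 hW2 ?_ hB hKH (hHz x0 hx0' X hX htight) hIz hC1s hL
  rw [lt_div_iff₀ (by positivity)] at hXW
  linarith

end Pool.Agent.H680R3.EX
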