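import Mathlib
import Pool.Agent.H680R3.EX.Key6
import Pool.Agent.H116R3.Ex680A
import Pool.Agent.H116R3.Ex680B
import Pool.Agent.H285R3.Ex680E
import Pool.Agent.H285R3.Ex680G
import Pool.Agent.H99R3.Ex680F
import Pool.Agent.H99R3.Ex680H
import Pool.Agent.H672R3.Ex680I
import Pool.Agent.H672R3.Ex680J
import Pool.Agent.H672R3.Ex680L

open MeasureTheory Polynomial Set Filter

namespace Pool.Agent.H680R3.EX

open Pool.Agent.Helper404 (toP castQ kmC)

theorem taskL_full : TaskL :=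
  Pool.Agent.H672R3.EX680.taskL (key_of Pool.Agent.H116R3.Ex680A.taskA
    (Pool.Agent.H285R3.Ex680E.taskE_of Pool.Agent.H116R3.Ex680B.taskB)
    Pool.Agent.H99R3.EX.taskF Pool.Agent.H285R3.Ex680G.taskG Pool.Agent.H99R3.EX.taskH
    Pool.Agent.H672R3.EX680.taskI Pool.Agent.H672R3.EX680.taskJ taskK)

theorem toP_coeffs {n : ℕ} (P : ℤ[X]) (hP : P.natDegree = n) :
    toP (fun i : Fin (n + 1) => P.coeff i) = P := by
  unfold toP
  rw [Fin.sum_univ_eq_sum_range (fun i => C (P.coeff i) * X ^ i)]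
  conv_rhs => rw [P.as_sum_range_C_mul_X_pow, hP]

theorem ht_coeffs {n : ℕ} (P : ℤ[X]) :
    (Finset.range (n + 1)).sup (fun i => (P.coeff i).natAbs) =
      ht (fun i : Fin (n + 1) => P.coeff i) := by
  unfold ht
  apply le_antisymm
  · apply Finset.sup_le
    intro i hi
    exact Finset.le_sup (f := fun i : Fin (n + 1) => (P.coeff i).natAbs)
      (Finset.mem_univ (⟨i, Finset.mem_range.1 hi⟩ : Fin (n + 1)))
  · apply Finset.sup_le
    intro i _
    exact Finset.le_sup (f := fun i : ℕ => (P.coeff i).natAbs) (Finset.mem_range.2 i.2)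

theorem ht_support {n : ℕ} (P : ℤ[X]) (hP : P.natDegree = n) :
    P.support.sup (fun i => (P.coeff i).natAbs) =
      (Finset.range (n + 1)).sup (fun i => (P.coeff i).natAbs) := by
  apply le_antisymm
  · apply Finset.sup_mono
    intro i hi
    rw [Finset.mem_range, Nat.lt_succ_iff, ← hP]
    exact le_natDegree_of_mem_supp i hi
  · apply Finset.sup_le
    intro i _
    by_cases h : P.coeff i = 0
    · rw [h]; simp
    · exact Finset.le_sup (f := fun i : ℕ => (P.coeff i).natAbs) (mem_support_iff.2 h)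

/-- the set in terms of coefficient vectors equals the one in terms of polynomials -/
theorem set_eq (n : ℕ) (s c ξ : ℝ) :
    {α : ℝ | ∃ u : Fin (n + 1) → ℤ, Good n α u ∧ |ξ - α| < c * (ht u : ℝ) ^ (-s)} =
    {α : ℝ | (minpoly ℚ α).natDegree = n ∧ ∃ P : Polynomial ℤ, P.IsPrimitive ∧ P.natDegree = n ∧
      Polynomial.aeval α P = 0 ∧ |ξ - α| < c * ((((Finset.range (n + 1)).sup
        (fun i => (P.coeff i).natAbs) : ℕ) : ℝ) ^ (-s))} := by
  ext α
  constructor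
  · rintro ⟨u, ⟨h1, h2, h3, h4⟩, h5⟩
    refine ⟨h1, toP u, h2, h3, h4, ?_⟩
    rw [ht_coeffs]
    have : (fun i : Fin (n + 1) => (toP u).coeff (i : ℕ)) = u := funext (coeff_toP u)
    rw [this]; exact h5
  · rintro ⟨h1, P, h2, h3, h4, h5⟩
    refine ⟨fun i => P.coeff i, ⟨h1, ?_, ?_, ?_⟩, ?_⟩
    · rw [toP_coeffs P h3]; exact h2
    · rw [toP_coeffs P h3]; exact h3
    · rw [toP_coeffs P h3]; exact h4
    · rw [ht_coeffs] at h5; exact h5

theorem main : ∀ n : ℕ, 2 ≤ n → ∀ c₁ c₂ τ : ℝ, 0 < c₁ → c₁ < c₂ → 1 < τ →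
    ∃ ξ : ℝ,
      {α : ℝ | (minpoly ℚ α).natDegree = n ∧
        ∃ P : Polynomial ℤ, P.IsPrimitive ∧ P.natDegree = n ∧
          Polynomial.aeval α P = 0 ∧
          |ξ - α| < c₂ * ((((Finset.range (n + 1)).sup
            (fun i => (P.coeff i).natAbs) : ℕ) : ℝ) ^ (-((n + 1 : ℝ) * τ)))}.Infinite ∧
      {α : ℝ | (minpoly ℚ α).natDegree = n ∧
        ∃ P : Polynomial ℤ, P.IsPrimitive ∧ P.natDegree = n ∧
          Polynomial.aeval α P = 0 ∧
          |ξ - α| < c₁ * ((((Finset.range (n + 1)).sup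
            (fun i => (P.coeff i).natAbs) : ℕ) : ℝ) ^ (-((n + 1 : ℝ) * τ)))}.Finite := by
  intro n hn c₁ c₂ τ h1 h12 hτ
  have hs : (n : ℝ) + 1 < (n + 1 : ℝ) * τ := by
    have : (0 : ℝ) ≤ n := Nat.cast_nonneg n
    nlinarith
  obtain ⟨ξ, hi, hf⟩ := taskL_full n hn ((n + 1 : ℝ) * τ) c₁ c₂ hs h1 h12
  rw [set_eq] at hi hf
  exact ⟨ξ, hi, hf⟩

theorem main' : ∀ n : ℕ, 2 ≤ n → ∀ τ c₁ c₂ : ℝ, 1 < τ → 0 < c₁ → c₁ < c₂ →
    ∃ ξ : ℝ,
      {α : ℝ | (minpoly ℚ α).natDegree = n ∧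
        ∃ P : Polynomial ℤ, P.IsPrimitive ∧ P.natDegree = n ∧
          Polynomial.aeval α P = 0 ∧
          |ξ - α| < c₂ * (((P.support.sup (fun i => (P.coeff i).natAbs) : ℕ) : ℝ)) ^
            (-(((n : ℝ) + 1) * τ))}.Infinite ∧
      {α : ℝ | (minpoly ℚ α).natDegree = n ∧
        ∃ P : Polynomial ℤ, P.IsPrimitive ∧ P.natDegree = n ∧
          Polynomial.aeval α P = 0 ∧
          |ξ - α| < c₁ * (((P.support.sup (fun i => (P.coeff i).natAbs) : ℕ) : ℝ)) ^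
            (-(((n : ℝ) + 1) * τ))}.Finite := by
  intro n hn τ c₁ c₂ hτ h1 h12
  obtain ⟨ξ, hi, hf⟩ := main n hn c₁ c₂ τ h1 h12 hτ
  have key : ∀ c : ℝ, {α : ℝ | (minpoly ℚ α).natDegree = n ∧
        ∃ P : Polynomial ℤ, P.IsPrimitive ∧ P.natDegree = n ∧
          Polynomial.aeval α P = 0 ∧
          |ξ - α| < c * (((P.support.sup (fun i => (P.coeff i).natAbs) : ℕ) : ℝ)) ^
            (-(((n : ℝ) + 1) * τ))} = {α : ℝ | (minpoly ℚ α).natDegree = n ∧
        ∃ P : Polynomial ℤ, P.IsPrimitive ∧ P.natDegree = n ∧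
          Polynomial.aeval α P = 0 ∧
          |ξ - α| < c * ((((Finset.range (n + 1)).sup
            (fun i => (P.coeff i).natAbs) : ℕ) : ℝ) ^ (-((n + 1 : ℝ) * τ)))} := by
    intro c
    ext α
    constructor
    · rintro ⟨h1, P, h2, h3, h4, h5⟩
      refine ⟨h1, P, h2, h3, h4, ?_⟩
      rw [ht_support P h3] at h5
      exact h5
    · rintro ⟨h1, P, h2, h3, h4, h5⟩
      refine ⟨h1, P, h2, h3, h4, ?_⟩
      rw [ht_support P h3]
      exact h5
  exact ⟨ξ, by rw [key]; exact hi, by rw [key]; exact hf⟩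

end Pool.Agent.H680R3.EX
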